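import Pool.Agent.Y228.FT.TwD
import Pool.Agent.Y160.FT.Stmts2

set_option autoImplicit false
set_option linter.all false

/-! FT-Ind: `ℓ`-th powers in the tower. -/

namespace Pool.Agent.Y228.FT

open Polynomial IsDedekindDomain WithZero
open Pool.Agent.Y160.SE (IsPw)
open Pool.Agent.Y160.FT

/-- `of` is injective -/
theorem of_inj {R : Type} [CommRing R] [IsDomain R] {n : ℕ} (hn : 0 < n) (π : R) :
    Function.Injective (AdjoinRoot.of (X ^ n - C π : R[X])) := by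
  rw [injective_iff_map_eq_zero]
  intro a ha
  by_contra h0
  have h1 : (X ^ n - C π : R[X]) ∣ C a := AdjoinRoot.mk_eq_zero.1 ha
  refine (monic_X_pow_sub_C π hn.ne').not_dvd_of_natDegree_lt (C_ne_zero.2 h0) ?_ h1
  rw [natDegree_C, natDegree_X_pow_sub_C]
  exact hn

theorem struct {R : Type} [CommRing R] [IsDomain R] {n ℓ r : ℕ} (hℓ : 0 < ℓ) (hr : 0 < r)
    (hn : n = r * ℓ) (π : R) (f : R[X]) (hf : f = X ^ n - C π) [IsDomain (AdjoinRoot f)] {ζ : R}
    (hζ : IsPrimitiveRoot ζ n) (w : AdjoinRoot f) (α : R)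
    (hw : w ^ ℓ = AdjoinRoot.of f α) :
    ∃ (y : R) (i : ℕ), i < ℓ ∧ α = y ^ ℓ * π ^ i := by
  have hn0 : 0 < n := by rw [hn]; positivity
  have hinj : Function.Injective (AdjoinRoot.of f) := by rw [hf]; exact of_inj hn0 π
  have hmon : f.Monic := by rw [hf]; exact monic_X_pow_sub_C π hn0.ne'
  have hdeg : f.natDegree = n := by rw [hf]; exact natDegree_X_pow_sub_C
  have hev : ∀ {S : Type} [CommRing S] (φ : R →+* S) (z : S), eval₂ φ z f = z ^ n - φ π := by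
    intro S _ φ z
    rw [hf, eval₂_sub, eval₂_X_pow, eval₂_C]
  have hroot : AdjoinRoot.root f ^ n = AdjoinRoot.of f π := by
    have h := AdjoinRoot.eval₂_root f
    rw [hev, sub_eq_zero] at h
    exact h
  -- the automorphism
  have hσ0 : eval₂ (AdjoinRoot.of f) (AdjoinRoot.of f ζ * AdjoinRoot.root f) f = 0 := by
    rw [hev, mul_pow, ← map_pow, hζ.pow_eq_one, map_one, one_mul, hroot,
      sub_self]
  obtain ⟨p, rfl⟩ : ∃ p : R[X], AdjoinRoot.mk f (p %ₘ f) = w := by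
    obtain ⟨p, hp⟩ := AdjoinRoot.mk_surjective w
    refine ⟨p, ?_⟩
    rw [← hp]
    conv_rhs => rw [← modByMonic_add_div p f]
    rw [map_add, map_mul, AdjoinRoot.mk_self, zero_mul, add_zero]
  have hplt : (p %ₘ f).natDegree < n := by
    rw [← hdeg]
    refine natDegree_modByMonic_lt p hmon ?_
    intro h1
    rw [h1, natDegree_one] at hdeg
    omega
  set P := p %ₘ f with hP
  have hσ1 : AdjoinRoot.lift (AdjoinRoot.of f) _ hσ0 (AdjoinRoot.mk f P) =
      AdjoinRoot.mk f (P.comp (C ζ * X)) := by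
    rw [AdjoinRoot.lift_mk]
    have h1 : AdjoinRoot.mk f (P.comp (C ζ * X)) =
        eval₂ (AdjoinRoot.of f) (AdjoinRoot.root f) (P.comp (C ζ * X)) := by
      rw [← AdjoinRoot.aeval_eq, aeval_def, AdjoinRoot.algebraMap_eq]
    rw [h1, eval₂_comp, eval₂_mul, eval₂_C, eval₂_X]
  have hσ2 : (AdjoinRoot.lift (AdjoinRoot.of f) _ hσ0 (AdjoinRoot.mk f P)) ^ ℓ =
      (AdjoinRoot.mk f P) ^ ℓ := by
    rw [← map_pow, hw, AdjoinRoot.lift_of]
  -- the root of unity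
  have hζℓ : IsPrimitiveRoot (ζ ^ r) ℓ := hζ.pow hn0 hn
  have hζℓ' : IsPrimitiveRoot (AdjoinRoot.of f (ζ ^ r)) ℓ := hζℓ.map_of_injective hinj
  obtain ⟨i, hi, hσ3⟩ : ∃ i < ℓ, AdjoinRoot.lift (AdjoinRoot.of f) _ hσ0 (AdjoinRoot.mk f P) =
      AdjoinRoot.of f ((ζ ^ r) ^ i) * AdjoinRoot.mk f P := by
    have h1 := hζℓ'.pow_sub_pow_eq_prod_sub_mul
      (AdjoinRoot.lift (AdjoinRoot.of f) _ hσ0 (AdjoinRoot.mk f P)) (AdjoinRoot.mk f P) hℓ
    rw [hσ2, sub_self] at h1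
    obtain ⟨η, hη, h2⟩ := Finset.prod_eq_zero_iff.1 h1.symm
    rw [mem_nthRootsFinset hℓ] at hη
    haveI : NeZero ℓ := ⟨hℓ.ne'⟩
    obtain ⟨i, hi, h3⟩ := hζℓ'.eq_pow_of_pow_eq_one hη
    refine ⟨i, hi, ?_⟩
    rw [sub_eq_zero.1 h2, ← h3, ← map_pow]
  -- compare the coefficients
  have hcoef : P.comp (C ζ * X) - C ((ζ ^ r) ^ i) * P = 0 := by
    by_contra h0
    have h1 : f ∣ P.comp (C ζ * X) - C ((ζ ^ r) ^ i) * P := by
      rw [← AdjoinRoot.mk_eq_zero, map_sub, map_mul, ← hσ1, hσ3, AdjoinRoot.mk_C, sub_self]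
    refine hmon.not_dvd_of_natDegree_lt h0 ?_ h1
    rw [hdeg]
    refine lt_of_le_of_lt (natDegree_sub_le _ _) (max_lt ?_ ?_)
    · refine lt_of_le_of_lt natDegree_comp_le ?_
      have : (C ζ * X : R[X]).natDegree ≤ 1 := (natDegree_C_mul_le _ _).trans natDegree_X_le
      calc P.natDegree * (C ζ * X : R[X]).natDegree ≤ P.natDegree * 1 := Nat.mul_le_mul_left _ this
        _ < n := by rw [mul_one]; exact hplt
    · exact lt_of_le_of_lt (natDegree_C_mul_le _ _) hplt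
  have hzero : ∀ t, t ≠ r * i → P.coeff t = 0 := by
    intro t ht
    by_cases htn : t < n
    · have h1 := congrArg (fun z => z.coeff t) hcoef
      simp only [coeff_sub, comp_C_mul_X_coeff, coeff_C_mul, coeff_zero] at h1
      have h2 : P.coeff t * (ζ ^ t - ζ ^ (r * i)) = 0 := by rw [pow_mul]; linear_combination h1
      rcases mul_eq_zero.1 h2 with h3 | h3
      · exact h3
      · exfalso
        apply ht
        refine hζ.pow_inj htn ?_ (sub_eq_zero.1 h3)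
        rw [hn]
        exact Nat.mul_lt_mul_of_pos_left hi hr
    · exact coeff_eq_zero_of_natDegree_lt (by omega)
  have hPeq : P = C (P.coeff (r * i)) * X ^ (r * i) := by
    ext t
    rw [coeff_C_mul_X_pow]
    split_ifs with h
    · rw [h]
    · exact hzero t h
  have hmk : AdjoinRoot.mk f P = AdjoinRoot.of f (P.coeff (r * i)) * AdjoinRoot.root f ^ (r * i) := by
    conv_lhs => rw [hPeq]
    rw [map_mul, map_pow, AdjoinRoot.mk_X, AdjoinRoot.mk_C]
  refine ⟨P.coeff (r * i), i, hi, hinj ?_⟩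
  rw [← hw, hmk, mul_pow, ← pow_mul,
    show r * i * ℓ = n * i by rw [hn]; ring, pow_mul, hroot, map_mul, map_pow, map_pow]

/-- `ℓ`-th powers in `R` -/
def IndR (ℓ : ℕ) {k R : Type} [Field k] [CommRing R] [Algebra k R] (g : k[X]) (x : R) : Prop :=
  ∀ (c : k) (A : k[X]) (w : R), c ≠ 0 → VV g A → algebraMap k R c * aeval x A = w ^ ℓ →
    ∃ (j : ℕ) (B : k[X]), C c * A = (-g) ^ j * B ^ ℓ

section

variable {k : Type} [Field k] {ℓ q s : ℕ} {ζ : k} {g : k[X]}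

theorem ind_base (h1 : StKum) (h5 : StPres0) (hℓ : ℓ.Prime) (hq : q = ℓ ^ (s + 1))
    (hζ : IsPrimitiveRoot ζ q) (hsep : g.Separable) (hcop : ℓ.Coprime g.natDegree) :
    ∃ (R : Type) (_ : CommRing R) (_ : IsDedekindDomain R) (_ : Algebra k R) (x u : R),
      Pres x u (FF ℓ q g []) ∧ IndR ℓ g x := by
  have hq1 : 1 < q := by rw [hq]; exact Nat.one_lt_pow (by omega) hℓ.one_lt
  have hg0 : g ≠ 0 := hsep.ne_zero
  have hnd : ¬ ℓ ∣ g.natDegree := fun hd => by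
    have := Nat.eq_one_of_dvd_coprimes hcop dvd_rfl hd
    exact hℓ.one_lt.ne' this
  obtain ⟨p0, hp0, hp0g, hp0l⟩ := exists_good (ℓ := ℓ) _ g hg0 le_rfl hnd
  have hval : ∀ v : HeightOneSpectrum k[X], v.intValuation (-g) = 1 ∨
      v.intValuation (-g) = exp (-1 : ℤ) := fun v => by
    rw [Valuation.map_neg]; exact val_sqf hsep.squarefree v
  have hv0 : (vpr hp0.prime).intValuation (-g) < 1 := by
    rw [Valuation.map_neg]; exact (vpr_lt_one hp0.prime g).2 hp0g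
  obtain ⟨hD, -⟩ := h1 q k k[X] ζ (-g) hq1 hζ hval ⟨vpr hp0.prime, (hval _).resolve_left hv0.ne⟩
  letI := hD
  refine ⟨AdjoinRoot (X ^ q - C (-g) : k[X][X]), inferInstance, hD, inferInstance, _, _,
    h5 k g q (by omega), ?_⟩
  intro c A w hc hA hw
  have hζ' : IsPrimitiveRoot (C ζ : k[X]) q := hζ.map_of_injective C_injective
  have hqr : q = ℓ ^ s * ℓ := by rw [hq, pow_succ]
  have hw' : w ^ ℓ = AdjoinRoot.of (X ^ q - C (-g) : k[X][X]) (C c * A) := by
    rw [← hw, map_mul]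
    congr 1
    rw [aeval_algebraMap_apply, aeval_X_left_apply]
    rfl
  obtain ⟨y, i, hi, h⟩ := struct hℓ.pos (pow_pos hℓ.pos s) hqr (-g) _ rfl hζ' w (C c * A) hw'
  exact ⟨i, y, by rw [h, mul_comm]⟩

theorem ind_step (h1 : StKum) (h3 : StRes) (h4 : StPres) (hℓ : ℓ.Prime) (hq : q = ℓ ^ (s + 1))
    (hζ : IsPrimitiveRoot ζ q) {l : List (k[X] × k)} {b : k[X]} {a : k}
    (hc : Cond ℓ q g (l ++ [(b, a)])) {R : Type} [CommRing R] [IsDedekindDomain R] [Algebra k R]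
    {x u : R} (hP : Pres x u (FF ℓ q g l)) (hR : IndR ℓ g x) :
    ∃ (R' : Type) (_ : CommRing R') (_ : IsDedekindDomain R') (_ : Algebra k R') (x' u' : R'),
      Pres x' u' (FF ℓ q g (l ++ [(b, a)])) ∧ IndR ℓ g x' := by
  have hq2 : 2 ≤ q := by rw [hq]; exact Nat.one_lt_pow (by omega) hℓ.one_lt
  obtain ⟨π, hπ, huπ, hd, hs⟩ := step_data h3 hℓ hq2 hc hP
  have ha : a ≠ 0 := hc.ne l b a [] rfl
  have hζ' : IsPrimitiveRoot (ζ ^ (ℓ ^ s)) ℓ := hζ.pow (by omega) (by rw [hq, pow_succ])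
  obtain ⟨hD, hK⟩ := h1 ℓ k R (ζ ^ (ℓ ^ s)) π hℓ.one_lt hζ' (val_cases hπ) ⟨vpr hπ, vpr_self hπ⟩
  letI := hD
  have hPr := h4 k R x u π (FF ℓ q g l) ℓ a b hℓ.pos ha huπ hP
  rw [← FF_append] at hPr
  obtain ⟨H, hgx⟩ : ∃ H : R, aeval x g = -H ^ q := by
    have h5 := (hP.ker (FF ℓ q g l)).2 dvd_rfl
    unfold FF at h5
    rw [eval₂_add, eval₂_C, eval₂_pow] at h5
    exact ⟨_, eq_neg_of_add_eq_zero_left h5⟩
  refine ⟨AdjoinRoot (X ^ ℓ - C π : R[X]), inferInstance, hD, inferInstance, _, _, hPr, ?_⟩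
  intro c A w hc0 hA hw
  have hkR : Function.Injective (algebraMap k R) := (algebraMap k R).injective
  have hζR : IsPrimitiveRoot (algebraMap k R (ζ ^ (ℓ ^ s))) ℓ := hζ'.map_of_injective hkR
  have hw' : w ^ ℓ = AdjoinRoot.of (X ^ ℓ - C π : R[X]) (algebraMap k R c * aeval x A) := by
    rw [← hw, map_mul]
    congr 1
    rw [aeval_algebraMap_apply]
    rfl
  obtain ⟨y, i, hi, h⟩ := struct (r := 1) hℓ.pos one_pos (by rw [one_mul]) π _ rfl hζR w _ hw'
  rcases Nat.eq_zero_or_pos i with h0 | h0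
  · rw [h0, pow_zero, mul_one] at h
    exact hR c A y hc0 hA h
  exfalso
  -- `G` divides `A`
  have hcu : IsUnit (algebraMap k R c) := (IsUnit.mk0 _ hc0).map (algebraMap k R)
  have h6 : π ∣ aeval x A := by
    have : π ∣ algebraMap k R c * aeval x A := by
      rw [h]; exact (dvd_pow_self π h0.ne').mul_left _
    exact (hcu.dvd_mul_left).1 this
  have hGA := (hd A).1 h6
  obtain ⟨c', j, W, hc', hAW⟩ := hc.step l b a [] rfl c A 0 hc0 hA (by
    rw [zero_pow hℓ.ne_zero, sub_zero]; exact hGA.mul_left _)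
  have e0 : aeval x A = algebraMap k R c' * (-H ^ q) ^ j * (aeval x W) ^ ℓ := by
    rw [hAW, map_mul, map_mul, map_pow, map_pow, aeval_C, hgx]
  have e1 : algebraMap k R c * aeval x A =
      algebraMap k R (c * c' * (-1) ^ j) * (H ^ (ℓ ^ s * j) * aeval x W) ^ ℓ := by
    have e4 : (H ^ q) ^ j = (H ^ (ℓ ^ s * j)) ^ ℓ := by
      rw [← pow_mul, ← pow_mul]
      congr 1
      rw [hq, pow_succ]
      ring
    rw [e0, neg_pow, e4, mul_pow]
    simp only [map_mul, map_pow, map_neg, map_one]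
    ring
  -- it is not zero
  have hA0 : aeval x A ≠ 0 := by
    obtain ⟨N, hN⟩ := hA
    intro h7
    have h8 : eval₂ ((aeval x : k[X] →ₐ[k] R) : k[X] →+* R) u (C A) = 0 := by
      rw [eval₂_C]; exact h7
    have h9 := (hP.ker _).1 h8
    have hFF := FF_natDegree (q := q) hℓ.pos hq2 g l (fun l₁ b' a' l₂ h =>
      hc.ne l₁ b' a' (l₂ ++ [(b, a)]) (by rw [h, List.append_assoc]; rfl))
    by_cases hA00 : A = 0
    · rw [hA00, zero_dvd_iff] at hN
      exact pow_ne_zero N hc.sep.ne_zero hN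
    · have := natDegree_le_of_dvd h9 (C_ne_zero.2 hA00)
      rw [natDegree_C] at this
      omega
  have hne : algebraMap k R c * aeval x A ≠ 0 := mul_ne_zero hcu.ne_zero hA0
  have hE0 : H ^ (ℓ ^ s * j) * aeval x W ≠ 0 := fun h7 => by
    rw [h7, zero_pow hℓ.ne_zero, mul_zero] at e1
    exact hne e1
  have hy0 : y ≠ 0 := fun h7 => by
    rw [h7, zero_pow hℓ.ne_zero, zero_mul] at h
    exact hne h
  have hcc : c * c' * (-1) ^ j ≠ 0 :=
    mul_ne_zero (mul_ne_zero hc0 hc') (pow_ne_zero _ (by norm_num))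
  have hv : (vpr hπ).intValuation (y ^ ℓ * π ^ i) =
      (vpr hπ).intValuation (algebraMap k R (c * c' * (-1) ^ j) *
        (H ^ (ℓ ^ s * j) * aeval x W) ^ ℓ) := by rw [← h, e1]
  rw [map_mul, map_mul, map_pow, map_pow, map_pow, vpr_self,
    val_unit (vpr hπ) ((IsUnit.mk0 _ hcc).map (algebraMap k R)), one_mul] at hv
  have hi2 : ℓ ∣ i := by
    apply isPw_exp hℓ.ne_zero
    refine ⟨(vpr hπ).intValuation (H ^ (ℓ ^ s * j) * aeval x W) / (vpr hπ).intValuation y, ?_⟩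
    have hvy := val_ne_zero (vpr hπ) hy0
    rw [div_pow, ← hv]
    rw [mul_comm, mul_div_assoc, div_self (pow_ne_zero _ hvy), mul_one, ← exp_nsmul]
    congr 1
    rw [nsmul_eq_mul]
    ring
  exact absurd (Nat.le_of_dvd h0 hi2) (by omega)

end

end Pool.Agent.Y228.FT
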