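import Pool.Agent.Y228.FT.TwD

set_option autoImplicit false
set_option linter.all false

/-! FT-Tower: the induction. -/

namespace Pool.Agent.Y228.FT

open Polynomial IsDedekindDomain WithZero
open Pool.Agent.Y160.SE (IsPw)
open Pool.Agent.Y160.FT

section step

variable {k : Type} [Field k] {ℓ q s : ℕ} {ζ : k} {g : k[X]}

theorem exp_neg_one_ne_one : exp (-1 : ℤ) ≠ (1 : WithZero (Multiplicative ℤ)) := by
  intro h
  rw [← exp_zero, exp_inj] at h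
  omega

theorem step (h1 : StKum) (h2 : StTS) (h3 : StRes) (h4 : StPres) (hℓ : ℓ.Prime) (hq : q = ℓ ^ (s + 1))
    (hζ : IsPrimitiveRoot ζ q) {l : List (k[X] × k)} {b : k[X]} {a : k}
    (hc : Cond ℓ q g (l ++ [(b, a)])) {R : Type} [CommRing R] [IsDedekindDomain R] [Algebra k R]
    {x u : R} (hP : Pres x u (FF ℓ q g l)) (hR : PropR ℓ g x) :
    ∃ (R' : Type) (_ : CommRing R') (_ : IsDedekindDomain R') (_ : Algebra k R') (x' u' : R'),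
      Pres x' u' (FF ℓ q g (l ++ [(b, a)])) ∧ PropR ℓ g x' := by
  have hq2 : 2 ≤ q := by rw [hq]; exact Nat.one_lt_pow (by omega) hℓ.one_lt
  obtain ⟨π, hπ, huπ, hd, hs⟩ := step_data h3 hℓ hq2 hc hP
  have ha : a ≠ 0 := hc.ne l b a [] rfl
  have hG : Irreducible (g + (EE ℓ (RingHom.id k[X]) l b) ^ q) := hc.irr l b a [] rfl
  have hζ' : IsPrimitiveRoot (ζ ^ (ℓ ^ s)) ℓ := hζ.pow (by omega) (by rw [hq, pow_succ])
  obtain ⟨hD, hK⟩ := h1 ℓ k R (ζ ^ (ℓ ^ s)) π hℓ.one_lt hζ' (val_cases hπ) ⟨vpr hπ, vpr_self hπ⟩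
  letI := hD
  have hPr := h4 k R x u π (FF ℓ q g l) ℓ a b hℓ.pos ha huπ hP
  rw [← FF_append] at hPr
  obtain ⟨H, hgx⟩ : ∃ H : R, aeval x g = -H ^ q := by
    have h5 := (hP.ker (FF ℓ q g l)).2 dvd_rfl
    unfold FF at h5
    rw [eval₂_add, eval₂_C, eval₂_pow] at h5
    exact ⟨_, eq_neg_of_add_eq_zero_left h5⟩
  refine ⟨AdjoinRoot (X ^ ℓ - C π : R[X]), inferInstance, hD, inferInstance, _, _, hPr, ?_⟩
  intro L _ _ _ _ hcL z hz hzP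
  obtain ⟨σ, hKx⟩ := hK L (fun c => hcL c)
  have hinjL : ∀ a : R, a ≠ 0 → algebraMap (AdjoinRoot (X ^ ℓ - C π : R[X])) L
      (algebraMap R (AdjoinRoot (X ^ ℓ - C π : R[X])) a) ≠ 0 := fun a ha h => by
    apply ha
    apply hKx.inj
    rw [map_zero]
    exact (IsFractionRing.injective (AdjoinRoot (X ^ ℓ - C π : R[X])) L) (by rw [h, map_zero])
  have hv0 : (vpr hπ).intValuation π ≠ 1 := by rw [vpr_self]; exact exp_neg_one_ne_one
  have hV : ∀ d ∈ {d : R | d ≠ 0 ∧ ∃ (A : k[X]) (j : ℕ), VV g A ∧ d = aeval x A * π ^ j},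
      ∀ d' ∈ {d : R | d ≠ 0 ∧ ∃ (A : k[X]) (j : ℕ), VV g A ∧ d = aeval x A * π ^ j},
      d * d' ∈ {d : R | d ≠ 0 ∧ ∃ (A : k[X]) (j : ℕ), VV g A ∧ d = aeval x A * π ^ j} := by
    rintro d ⟨hd0, A, j, hA, rfl⟩ d' ⟨hd0', A', j', hA', rfl⟩
    exact ⟨mul_ne_zero hd0 hd0', A * A', j + j', VV.mul hA hA', by rw [map_mul, pow_add]; ring⟩
  have hV1 : (1 : R) ∈ {d : R | d ≠ 0 ∧ ∃ (A : k[X]) (j : ℕ), VV g A ∧ d = aeval x A * π ^ j} :=
    ⟨one_ne_zero, 1, 0, VV.one g, by rw [map_one, pow_zero, mul_one]⟩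
  refine Exists.elim (h2 ℓ 0 ℓ k R (AdjoinRoot (X ^ ℓ - C π : R[X])) L (ζ ^ (ℓ ^ s)) π _ σ
    {d : R | d ≠ 0 ∧ ∃ (A : k[X]) (j : ℕ), VV g A ∧ d = aeval x A * π ^ j} hℓ
    (by rw [zero_add, pow_one]) hζ' hKx (val_cases hπ)
    ⟨hV1, fun h => h.1 rfl, hV⟩ ?_ ?_ ?_ z hz hzP) ?_
  · intro a' b' ha' hb' hab
    exact stepA hℓ hπ hR a' b' ha' hb' hab
  · rintro c d hc0 ⟨hd0, A, j, hA, rfl⟩ hnr
    obtain ⟨c', i, W, hc', hAW⟩ := stepB hℓ hc hπ hd hs c hc0 A j hA (hnr (vpr hπ) hv0)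
    have hid := stepAlg (R := R) (R' := AdjoinRoot (X ^ ℓ - C π : R[X])) (L := L) (j := j) hKx.pw
      hKx.sk hgx hq hAW
    refine ⟨c' * (-1) ^ i, _, mul_ne_zero hc' (pow_ne_zero _ (by norm_num)), ?_, hid⟩
    intro h0
    rw [h0, zero_pow hℓ.ne_zero, mul_zero] at hid
    exact hinjL _ hd0 hid
  · refine ⟨vpr hπ, hv0, fun c w hcw => ?_⟩
    have h5 := (vpr_lt_one hπ _).1 hcw
    obtain ⟨p, hp⟩ := hs w
    have h6 : π ∣ w ^ ℓ - (aeval x p) ^ ℓ := hp.trans (sub_dvd_pow_sub_pow _ _ _)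
    have h7 : π ∣ aeval x (C c - p ^ ℓ) := by
      have e1 : aeval x (C c - p ^ ℓ) = (algebraMap k R c - w ^ ℓ) + (w ^ ℓ - (aeval x p) ^ ℓ) := by
        rw [map_sub, map_pow, aeval_C]; ring
      rw [e1]
      exact dvd_add h5 h6
    exact norm_pw hℓ.pos hG (by rw [degG hc]; exact hc.cop) ((hd _).1 h7)
  · rintro c ⟨d, w, hc0, ⟨hd0, A, j, hA, rfl⟩, hw, hzz⟩
    have hπr : algebraMap (AdjoinRoot (X ^ ℓ - C π : R[X])) L
        (algebraMap R (AdjoinRoot (X ^ ℓ - C π : R[X])) π) =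
        algebraMap _ L (AdjoinRoot.root (X ^ ℓ - C π : R[X])) ^ ℓ := by
      rw [← map_pow]
      exact congrArg _ hKx.pw.symm
    refine ⟨c, A, algebraMap _ L (AdjoinRoot.root (X ^ ℓ - C π : R[X])) ^ j * w, hc0, hA,
      mul_ne_zero (pow_ne_zero _ fun h => ?_) hw, ?_⟩
    · rw [h, zero_pow hℓ.ne_zero] at hπr
      exact hinjL π hπ.ne_zero hπr
    · rw [hzz, map_mul, map_mul, map_pow, map_pow, hπr, aeval_algebraMap_apply]
      ring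

theorem Cond.init {l : List (k[X] × k)} {p : k[X] × k} (hc : Cond ℓ q g (l ++ [p])) : Cond ℓ q g l := by
  have e : ∀ l₁ b a l₂, l = l₁ ++ (b, a) :: l₂ → l ++ [p] = l₁ ++ (b, a) :: (l₂ ++ [p]) := by
    intro l₁ b a l₂ h
    rw [h, List.append_assoc]
    rfl
  exact ⟨hc.monic, hc.sep, hc.cop, hc.redei,
    fun l₁ b a l₂ h => hc.ne l₁ b a _ (e l₁ b a l₂ h),
    fun l₁ b a l₂ h => hc.deg l₁ b a _ (e l₁ b a l₂ h),
    fun l₁ b a l₂ h => hc.irr l₁ b a _ (e l₁ b a l₂ h),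
    fun l₁ b a l₂ h => hc.gsep l₁ b a _ (e l₁ b a l₂ h),
    fun l₁ b a l₂ h => hc.step l₁ b a _ (e l₁ b a l₂ h)⟩

theorem tower (h1 : StKum) (h2 : StTS) (h3 : StRes) (h4 : StPres) (h5 : StPres0) (hℓ : ℓ.Prime)
    (hq : q = ℓ ^ (s + 1)) (hζ : IsPrimitiveRoot ζ q) (l : List (k[X] × k)) (hc : Cond ℓ q g l) :
    ∃ (R : Type) (_ : CommRing R) (_ : IsDedekindDomain R) (_ : Algebra k R) (x u : R),
      Pres x u (FF ℓ q g l) ∧ PropR ℓ g x := by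
  induction l using List.reverseRecOn with
  | nil => exact base h1 h2 h5 hℓ hq hζ hc.sep hc.cop hc.redei
  | append_singleton l p ih =>
    obtain ⟨b, a⟩ := p
    obtain ⟨R, i1, i2, i3, x, u, hP, hR⟩ := ih (Cond.init hc)
    exact step h1 h2 h3 h4 hℓ hq hζ hc hP hR

end step

theorem stTower (h1 : StKum) (h2 : StTS) (h3 : StRes) (h4 : StPres) (h5 : StPres0) : StTower := by
  intro ℓ q s k _ ζ g l hℓ hq hζ hc
  exact tower h1 h2 h3 h4 h5 hℓ hq hζ l hc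

end Pool.Agent.Y228.FT
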