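import Pool.Agent.Y228.FT.InA
import Pool.Agent.Y228.FT.TwE

set_option autoImplicit false
set_option linter.all false

/-! FT-Ind: independence modulo `q`-th powers. -/

namespace Pool.Agent.Y228.FT

open Polynomial IsDedekindDomain WithZero
open Pool.Agent.Y160.SE (IsPw)
open Pool.Agent.Y160.FT

theorem pres_equiv {k R₁ R₂ : Type} [Field k] [CommRing R₁] [CommRing R₂] [Algebra k R₁]
    [Algebra k R₂] {x₁ u₁ : R₁} {x₂ u₂ : R₂} {F : k[X][X]} (h₁ : Pres x₁ u₁ F) (h₂ : Pres x₂ u₂ F) :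
    ∃ e : R₁ ≃+* R₂, ∀ p : k[X][X], e (eval₂ ((aeval x₁ : k[X] →ₐ[k] R₁) : k[X] →+* R₁) u₁ p) =
      eval₂ ((aeval x₂ : k[X] →ₐ[k] R₂) : k[X] →+* R₂) u₂ p := by
  have hs₁ : Function.Surjective (eval₂RingHom ((aeval x₁ : k[X] →ₐ[k] R₁) : k[X] →+* R₁) u₁) := h₁.surj
  have hs₂ : Function.Surjective (eval₂RingHom ((aeval x₂ : k[X] →ₐ[k] R₂) : k[X] →+* R₂) u₂) := h₂.surj
  have hk : RingHom.ker (eval₂RingHom ((aeval x₁ : k[X] →ₐ[k] R₁) : k[X] →+* R₁) u₁) =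
      RingHom.ker (eval₂RingHom ((aeval x₂ : k[X] →ₐ[k] R₂) : k[X] →+* R₂) u₂) := by
    ext p
    rw [RingHom.mem_ker, RingHom.mem_ker]
    exact (h₁.ker p).trans (h₂.ker p).symm
  refine ⟨(RingHom.quotientKerEquivOfSurjective hs₁).symm.trans
    ((Ideal.quotEquivOfEq hk).trans (RingHom.quotientKerEquivOfSurjective hs₂)), fun p => ?_⟩
  have e1 : (RingHom.quotientKerEquivOfSurjective hs₁).symm
      (eval₂ ((aeval x₁ : k[X] →ₐ[k] R₁) : k[X] →+* R₁) u₁ p) = Ideal.Quotient.mk _ p := by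
    rw [RingEquiv.symm_apply_eq]
    rfl
  rw [RingEquiv.trans_apply, RingEquiv.trans_apply, e1, Ideal.quotEquivOfEq_mk]
  rfl

theorem IndR.transfer {ℓ : ℕ} {k R₁ R₂ : Type} [Field k] [CommRing R₁] [CommRing R₂] [Algebra k R₁]
    [Algebra k R₂] {g : k[X]} {x₁ u₁ : R₁} {x₂ u₂ : R₂} {F : k[X][X]} (h₁ : Pres x₁ u₁ F)
    (h₂ : Pres x₂ u₂ F) (h : IndR ℓ g x₁) : IndR ℓ g x₂ := by
  obtain ⟨e, he⟩ := pres_equiv h₂ h₁
  intro c A w hc hA hw
  refine h c A (e w) hc hA ?_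
  rw [← map_pow, ← hw, map_mul]
  have e1 := he (C A)
  have e2 := he (C (C c))
  rw [eval₂_C, eval₂_C] at e1 e2
  have e3 : ((aeval x₂ : k[X] →ₐ[k] R₂) : k[X] →+* R₂) (C c) = algebraMap k R₂ c := aeval_C _ _
  have e4 : ((aeval x₁ : k[X] →ₐ[k] R₁) : k[X] →+* R₁) (C c) = algebraMap k R₁ c := aeval_C _ _
  rw [e3, e4] at e2
  rw [e2]
  congr 1
  exact e1.symm

section

variable {k : Type} [Field k] {ℓ q s : ℕ} {ζ : k} {g : k[X]}

theorem ind_tower (h1 : StKum) (h3 : StRes) (h4 : StPres) (h5 : StPres0) (hℓ : ℓ.Prime)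
    (hq : q = ℓ ^ (s + 1)) (hζ : IsPrimitiveRoot ζ q) (l : List (k[X] × k)) (hc : Cond ℓ q g l) :
    ∃ (R : Type) (_ : CommRing R) (_ : IsDedekindDomain R) (_ : Algebra k R) (x u : R),
      Pres x u (FF ℓ q g l) ∧ IndR ℓ g x := by
  induction l using List.reverseRecOn with
  | nil => exact ind_base h1 h5 hℓ hq hζ hc.sep hc.cop
  | append_singleton l p ih =>
    obtain ⟨b, a⟩ := p
    obtain ⟨R, i1, i2, i3, x, u, hP, hR⟩ := ih (Cond.init hc)
    exact ind_step h1 h3 h4 hℓ hq hζ hc hP hR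

theorem root_rel {R : Type} [CommRing R] [IsDomain R] [Algebra k R] {ζ' : k} (hℓ : 0 < ℓ)
    (hζ' : IsPrimitiveRoot ζ' ℓ) {Y Z : R} (h : Y ^ ℓ = Z ^ ℓ) :
    ∃ η : k, η ^ ℓ = 1 ∧ Y = algebraMap k R η * Z := by
  have hζR : IsPrimitiveRoot (algebraMap k R ζ') ℓ := hζ'.map_of_injective (algebraMap k R).injective
  have h1 := hζR.pow_sub_pow_eq_prod_sub_mul Y Z hℓ
  rw [h, sub_self] at h1
  obtain ⟨η, hη, h2⟩ := Finset.prod_eq_zero_iff.1 h1.symm
  rw [mem_nthRootsFinset hℓ] at hη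
  haveI : NeZero ℓ := ⟨hℓ.ne'⟩
  obtain ⟨i, hi, h3⟩ := hζR.eq_pow_of_pow_eq_one hη
  refine ⟨ζ' ^ i, ?_, ?_⟩
  · rw [← pow_mul, mul_comm, pow_mul, hζ'.pow_eq_one, one_pow]
  · rw [sub_eq_zero.1 h2, ← h3, ← map_pow]

theorem stInd (h1 : StKum) (h3 : StRes) (h4 : StPres) (h5 : StPres0) : StInd := by
  intro ℓ q s k _ ζ g l hℓ hq hζ hc R L _ _ _ _ _ _ x u hP c A w hc0 hA hw
  obtain ⟨R₁, i1, i2, i3, x₁, u₁, hP₁, hI₁⟩ := ind_tower h1 h3 h4 h5 hℓ hq hζ l hc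
  have hI : IndR ℓ g x := IndR.transfer hP₁ hP hI₁
  obtain ⟨e, he⟩ := pres_equiv hP₁ hP
  haveI : IsIntegrallyClosed R := IsIntegrallyClosed.of_equiv e
  have hq2 : 2 ≤ q := by rw [hq]; exact Nat.one_lt_pow (by omega) hℓ.one_lt
  have hζ' : IsPrimitiveRoot (ζ ^ (ℓ ^ s)) ℓ := hζ.pow (by omega) (by rw [hq, pow_succ])
  have hinj := IsFractionRing.injective R L
  obtain ⟨H, hgx⟩ : ∃ H : R, aeval x g = -H ^ q := by
    have h5 := (hP.ker (FF ℓ q g l)).2 dvd_rfl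
    unfold FF at h5
    rw [eval₂_add, eval₂_C, eval₂_pow] at h5
    exact ⟨_, eq_neg_of_add_eq_zero_left h5⟩
  have hg0 : aeval x g ≠ 0 := by
    intro h7
    have h8 : eval₂ ((aeval x : k[X] →ₐ[k] R) : k[X] →+* R) u (C g) = 0 := by
      rw [eval₂_C]; exact h7
    have h9 := natDegree_le_of_dvd ((hP.ker _).1 h8) (C_ne_zero.2 hc.sep.ne_zero)
    have hFF := FF_natDegree (q := q) hℓ.pos hq2 g l hc.ne
    rw [natDegree_C] at h9
    omega
  have hH0 : H ≠ 0 := fun h7 => by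
    rw [h7, zero_pow (by omega), neg_zero] at hgx
    exact hg0 hgx
  have hHL : algebraMap R L H ≠ 0 := fun h => hH0 (hinj (by rw [h, map_zero]))
  have key : ∀ t : ℕ, t ≤ s + 1 → ∀ (c : k) (A : k[X]) (w : L), c ≠ 0 → VV g A →
      algebraMap R L (algebraMap k R c * aeval x A) = w ^ (ℓ ^ t) →
      ∃ (j : ℕ) (B : k[X]), C c * A = (-g) ^ j * B ^ (ℓ ^ t) := by
    intro t
    induction t with
    | zero =>
      intro _ c A w _ _ _
      exact ⟨0, C c * A, by rw [pow_zero, pow_zero, pow_one, one_mul]⟩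
    | succ t ih =>
      intro ht c A w hc0 hA hw
      obtain ⟨w', rfl⟩ : ∃ w' : R, algebraMap R L w' = w :=
        IsIntegrallyClosed.exists_algebraMap_eq_of_isIntegral_pow (n := ℓ ^ (t + 1))
          (pow_pos hℓ.pos _) (by rw [← hw]; exact isIntegral_algebraMap)
      have hw1 : algebraMap k R c * aeval x A = (w' ^ (ℓ ^ t)) ^ ℓ := by
        apply hinj
        rw [hw, ← map_pow, ← pow_mul, pow_succ]
      obtain ⟨j, B, hB⟩ := hI c A (w' ^ (ℓ ^ t)) hc0 hA hw1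
      have hVB : VV g B := by
        obtain ⟨N, hN⟩ := hA
        refine ⟨N, ?_⟩
        have h2 : B ∣ C c * A := by
          rw [hB]
          exact (dvd_pow_self B hℓ.ne_zero).mul_left _
        have hu : IsUnit (C c : k[X]) := isUnit_C.2 (IsUnit.mk0 _ hc0)
        exact ((hu.dvd_mul_left).1 h2).trans hN
      have e1 : (aeval x B * H ^ (ℓ ^ s * j)) ^ ℓ = (w' ^ (ℓ ^ t)) ^ ℓ := by
        rw [← hw1]
        have h2 := congrArg (aeval x) hB
        rw [map_mul, map_mul, aeval_C, map_pow, map_pow, map_neg, hgx, neg_neg] at h2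
        rw [h2, mul_pow, ← pow_mul, ← pow_mul]
        have e4 : ℓ ^ s * j * ℓ = q * j := by rw [hq, pow_succ]; ring
        rw [e4]
        ring
      obtain ⟨η, hη, e2⟩ := root_rel (k := k) hℓ.pos hζ' e1
      have hη0 : η ≠ 0 := fun h => by
        rw [h, zero_pow hℓ.ne_zero] at hη
        exact zero_ne_one hη
      obtain ⟨j', B', hB'⟩ := ih (by omega) η⁻¹ B
        (algebraMap R L w' / algebraMap R L H ^ (ℓ ^ (s - t) * j)) (inv_ne_zero hη0) hVB (by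
          have e5 : (ℓ ^ (s - t) * j) * ℓ ^ t = ℓ ^ s * j := by
            have : ℓ ^ s = ℓ ^ (s - t) * ℓ ^ t := by rw [← pow_add]; congr 1; omega
            rw [this]; ring
          rw [div_pow, ← pow_mul, e5, eq_div_iff (pow_ne_zero _ hHL), ← map_pow, ← map_pow,
            ← map_mul]
          congr 1
          rw [mul_assoc, e2, ← mul_assoc, ← map_mul, inv_mul_cancel₀ hη0, map_one, one_mul])
      refine ⟨j + j' * ℓ, B', ?_⟩
      have hBB : B = C η * ((-g) ^ j' * B' ^ (ℓ ^ t)) := by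
        rw [← hB', ← mul_assoc, ← C_mul, mul_inv_cancel₀ hη0, C_1, one_mul]
      have hη1 : (C η : k[X]) ^ ℓ = 1 := by rw [← C_pow, hη, C_1]
      rw [hB, hBB, mul_pow, hη1, one_mul, mul_pow, ← pow_mul, ← pow_mul, pow_add, pow_succ]
      ring
  obtain ⟨j, B, hB⟩ := key (s + 1) le_rfl c A w hc0 hA (by rw [← hq]; exact hw)
  refine ⟨c⁻¹ * (-1) ^ j, j, B, mul_ne_zero (inv_ne_zero hc0) (pow_ne_zero _ (by norm_num)), ?_⟩
  have h6 : A = C c⁻¹ * (C c * A) := by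
    rw [← mul_assoc, ← C_mul, inv_mul_cancel₀ hc0, C_1, one_mul]
  rw [h6, hB, ← hq, C_mul, C_pow, C_neg, C_1, neg_pow g]
  ring

end

end Pool.Agent.Y228.FT
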