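import Pool.Agent.Y228.FT.TwB

set_option autoImplicit false
set_option linter.all false

/-! FT-Tower: the first step. -/

namespace Pool.Agent.Y228.FT

open Polynomial IsDedekindDomain WithZero
open Pool.Agent.Y160.SE (IsPw)
open Pool.Agent.Y160.FT

/-- the property of the ring -/
def PropR (ℓ : ℕ) {k R : Type} [Field k] [CommRing R] [IsDedekindDomain R] [Algebra k R] (g : k[X])
    (x : R) : Prop :=
  ∀ (L : Type) [Field L] [Algebra R L] [IsFractionRing R L] [Algebra k L],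
      (∀ c : k, algebraMap k L c = algebraMap R L (algebraMap k R c)) →
      ∀ z : L, z ≠ 0 → (∀ P : HeightOneSpectrum R, IsPw ℓ (P.valuation L z)) →
        ∃ (c : k) (A : k[X]) (w : L), c ≠ 0 ∧ VV g A ∧ w ≠ 0 ∧
          z = algebraMap k L c * algebraMap R L (aeval x A) * w ^ ℓ

theorem lt_exp_iff {γ : WithZero (Multiplicative ℤ)} {e : ℕ} (h : γ < exp (-(e : ℤ))) :
    γ ≤ exp (-((e + 1 : ℕ) : ℤ)) := by
  by_cases h0 : γ = 0
  · rw [h0]; exact zero_le'
  · obtain ⟨t, rfl⟩ : ∃ t : ℤ, γ = exp t := ⟨log γ, (exp_log h0).symm⟩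
    rw [exp_lt_exp] at h
    rw [exp_le_exp]
    push_cast
    omega

theorem sign_pow {R : Type} [CommRing R] {ℓ q s : ℕ} (hℓ : ℓ.Prime) (hq : q = ℓ ^ (s + 1)) :
    ((-1 : R) ^ q) ^ ℓ = (-1) ^ q := by
  rcases Nat.even_or_odd q with h | h
  · rw [h.neg_one_pow, one_pow]
  · rw [h.neg_one_pow]
    have : Odd ℓ := by
      rw [hq] at h
      exact (Nat.odd_pow_iff (by omega)).1 h
    rw [this.neg_one_pow]

section base

variable {k : Type} [Field k] {ℓ q s : ℕ} {ζ : k} {g : k[X]}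

theorem val_neg_g (v : HeightOneSpectrum k[X]) : v.intValuation (-g) = v.intValuation g :=
  Valuation.map_neg _ _

theorem baseAlg {R L : Type} [CommRing R] [Algebra k[X] R] [Field L] [Algebra R L] [Algebra k L]
    {u : R} (hq : q = ℓ ^ (s + 1)) (hpw : u ^ q = algebraMap k[X] R (-g))
    (hsk : ∀ c : k, algebraMap k L c = algebraMap R L (algebraMap k[X] R (algebraMap k k[X] c)))
    {c' : k} {j : ℕ} {d w : k[X]} (hdw : d = C c' * g ^ j * w ^ ℓ) :
    algebraMap R L (algebraMap k[X] R d) = algebraMap k L (c' * (-1) ^ j) *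
      (algebraMap R L u ^ (ℓ ^ s * j) * algebraMap R L (algebraMap k[X] R w)) ^ ℓ := by
  have e1 : algebraMap R L (algebraMap k[X] R g) = -(algebraMap R L u) ^ q := by
    rw [← map_pow, hpw, map_neg, map_neg, neg_neg]
  have e2 : algebraMap R L (algebraMap k[X] R (C c')) = algebraMap k L c' := (hsk c').symm
  rw [hdw, map_mul, map_mul, map_mul, map_mul, map_pow, map_pow, map_pow, map_pow, e1, e2,
    map_mul, map_pow, map_neg, map_one, mul_pow, ← pow_mul, neg_pow, ← pow_mul]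
  have e4 : q * j = ℓ ^ s * j * ℓ := by rw [hq, pow_succ]; ring
  rw [e4]
  ring

theorem base (h1 : StKum) (h2 : StTS) (h5 : StPres0) (hℓ : ℓ.Prime) (hq : q = ℓ ^ (s + 1))
    (hζ : IsPrimitiveRoot ζ q) (hsep : g.Separable) (hcop : ℓ.Coprime g.natDegree)
    (hredei : ∀ (c : k) (A : k[X]), c ≠ 0 → VV g A → (∀ p : k[X], p.Monic → Irreducible p → p ∣ g →
      ∃ (e : ℕ) (w : k[X]), ¬ p ∣ w ∧ p ^ (e + 1) ∣ C c * A - g ^ e * w ^ ℓ) → Triv ℓ g A) :
    ∃ (R : Type) (_ : CommRing R) (_ : IsDedekindDomain R) (_ : Algebra k R) (x u : R),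
      Pres x u (FF ℓ q g []) ∧ PropR ℓ g x := by
  have hq1 : 1 < q := by rw [hq]; exact Nat.one_lt_pow (by omega) hℓ.one_lt
  have hg0 : g ≠ 0 := hsep.ne_zero
  have hnd : ¬ ℓ ∣ g.natDegree := fun hd => by
    have := Nat.eq_one_of_dvd_coprimes hcop dvd_rfl hd
    exact hℓ.one_lt.ne' this
  obtain ⟨p0, hp0, hp0g, hp0l⟩ := exists_good (ℓ := ℓ) _ g hg0 le_rfl hnd
  have hval : ∀ v : HeightOneSpectrum k[X], v.intValuation (-g) = 1 ∨
      v.intValuation (-g) = exp (-1 : ℤ) := fun v => by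
    rw [val_neg_g]; exact val_sqf hsep.squarefree v
  have hv0 : (vpr hp0.prime).intValuation (-g) < 1 := by
    rw [val_neg_g]; exact (vpr_lt_one hp0.prime g).2 hp0g
  obtain ⟨hD, hK⟩ := h1 q k k[X] ζ (-g) hq1 hζ hval ⟨vpr hp0.prime, (hval _).resolve_left hv0.ne⟩
  letI := hD
  refine ⟨AdjoinRoot (X ^ q - C (-g) : k[X][X]), inferInstance, hD, inferInstance, _, _,
    h5 k g q (by omega), ?_⟩
  intro L _ _ _ _ hc z hz hzP
  obtain ⟨σ, hKx⟩ := hK L hc
  have hinjL : ∀ a : k[X], a ≠ 0 → algebraMap (AdjoinRoot (X ^ q - C (-g) : k[X][X])) L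
      (algebraMap k[X] (AdjoinRoot (X ^ q - C (-g) : k[X][X])) a) ≠ 0 := fun a ha h => by
    apply ha
    apply hKx.inj
    rw [map_zero]
    exact (IsFractionRing.injective (AdjoinRoot (X ^ q - C (-g) : k[X][X])) L) (by rw [h, map_zero])
  have hV1 : ∀ a ∈ {d : k[X] | d ≠ 0 ∧ VV g d}, ∀ b ∈ {d : k[X] | d ≠ 0 ∧ VV g d},
      a * b ∈ {d : k[X] | d ≠ 0 ∧ VV g d} := fun a ha b hb => ⟨mul_ne_zero ha.1 hb.1, VV.mul ha.2 hb.2⟩
  refine Exists.elim (h2 ℓ s q k k[X] (AdjoinRoot (X ^ q - C (-g) : k[X][X])) L ζ (-g) _ σ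
    {d : k[X] | d ≠ 0 ∧ VV g d} hℓ hq hζ hKx hval
    ⟨⟨one_ne_zero, VV.one g⟩, fun h => h.1 rfl, hV1⟩ ?_ ?_ ?_ z hz hzP) ?_
  · -- unique factorisation
    intro a b ha hb hab
    have hP : a * b ^ (ℓ - 1) ≠ 0 := mul_ne_zero ha (pow_ne_zero _ hb)
    obtain ⟨c, d, w, h6, h7, h8, h10, h9⟩ := factor hℓ.pos g _ (a * b ^ (ℓ - 1)) hP le_rfl (fun v hv => by
      have h := hab v (by rw [val_neg_g]; exact hv)
      have hvb := val_ne_zero v hb
      have e : v.intValuation (a * b ^ (ℓ - 1)) =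
          (v.intValuation a / v.intValuation b) * (v.intValuation b) ^ ℓ := by
        rw [map_mul, map_pow]
        have : (v.intValuation b) ^ ℓ = v.intValuation b * (v.intValuation b) ^ (ℓ - 1) := by
          rw [← pow_succ']
          congr 1
          have := hℓ.pos
          omega
        rw [this, ← mul_assoc, div_mul_cancel₀ _ hvb]
      rw [e]
      exact h.mul (IsPw.self _))
    refine ⟨c, d, w, b, h6, ⟨h10, h7⟩, h8, hb, ?_⟩
    have : b ^ ℓ = b ^ (ℓ - 1) * b := by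
      rw [← pow_succ]
      congr 1
      have := hℓ.pos
      omega
    rw [this, ← mul_assoc, h9]
    show C c * d * w ^ ℓ * b = C c * d * b * w ^ ℓ
    ring
  · -- norm residues
    intro c d hc0 hd hnr
    have hT : Triv ℓ g d := by
      refine hredei c d hc0 hd.2 fun p hpm hpi hpg => ?_
      obtain ⟨e, w, he1, he2⟩ := hnr (vpr hpi.prime) (by
        rw [val_neg_g]; exact ((vpr_lt_one hpi.prime g).2 hpg).ne)
      refine ⟨e, ((-1) ^ q) ^ e * w, fun hdv => ?_, ?_⟩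
      · have h3 : p ∣ w := by
          rcases hpi.prime.dvd_or_dvd hdv with h | h
          · exfalso
            have hu : IsUnit (((-1 : k[X]) ^ q) ^ e) := (isUnit_one.neg.pow q).pow e
            exact hpi.not_isUnit (isUnit_of_dvd_unit h hu)
          · exact h
        exact (vpr_eq_one hpi.prime w).1 he1 h3
      · have h3 := (vpr_le hpi.prime _ _).1 (lt_exp_iff he2)
        have e3 : ((-1 : k[X]) ^ (q - 1) * -g) ^ e * w ^ ℓ = g ^ e * ((((-1) ^ q) ^ e) * w) ^ ℓ := by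
          have e4 : (-1 : k[X]) ^ (q - 1) * -g = (-1) ^ q * g := by
            have : (-1 : k[X]) ^ q = (-1) ^ (q - 1) * (-1) := by
              rw [← pow_succ]
              congr 1
              omega
            rw [this]
            ring
          have e5 : (((-1 : k[X]) ^ q) ^ e) ^ ℓ = ((-1) ^ q) ^ e := by
            rw [← pow_mul ((-1 : k[X]) ^ q), mul_comm e ℓ, pow_mul, sign_pow hℓ hq]
          rw [e4, mul_pow, mul_pow, e5]
          ring
        rw [e3] at h3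
        exact h3
    obtain ⟨c', j, w, hc', hdw⟩ := hT
    have hid : algebraMap (AdjoinRoot (X ^ q - C (-g) : k[X][X])) L
        (algebraMap k[X] (AdjoinRoot (X ^ q - C (-g) : k[X][X])) d) =
        algebraMap k L (c' * (-1) ^ j) *
          (algebraMap _ L (AdjoinRoot.root (X ^ q - C (-g) : k[X][X])) ^ (ℓ ^ s * j) *
          algebraMap _ L (algebraMap k[X] (AdjoinRoot (X ^ q - C (-g) : k[X][X])) w)) ^ ℓ :=
      baseAlg hq hKx.pw hKx.sk hdw
    refine ⟨c' * (-1) ^ j, _, mul_ne_zero hc' (pow_ne_zero _ (by norm_num)), ?_, hid⟩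
    intro h0
    rw [h0, zero_pow hℓ.ne_zero, mul_zero] at hid
    exact hinjL d hd.1 hid
  · -- the good place
    refine ⟨vpr hp0.prime, hv0.ne, fun c w hcw => ?_⟩
    have h3 := (vpr_lt_one hp0.prime _).1 hcw
    exact norm_pw hℓ.pos hp0 ((Nat.Prime.coprime_iff_not_dvd hℓ).2 hp0l) h3
  · rintro c ⟨d, w, hc0, hdV, hw, hzz⟩
    refine ⟨c, d, w, hc0, hdV.2, hw, ?_⟩
    rw [hzz]
    congr 3
    rw [aeval_algebraMap_apply, aeval_X_left_apply]

end base

end Pool.Agent.Y228.FT
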