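import Pool.Agent.Y160.FT.Stmts

set_option autoImplicit false
set_option linter.all false

namespace Pool.Agent.Y228.FT

open Polynomial

variable {k : Type} [Field k]

/-- the weight of the coefficient of `x ^ j` -/
noncomputable def wt (n M : ℕ) (P : k[X][X]) (j : ℕ) : ℕ := n * (P.coeff j).natDegree + M * j

/-- the weight -/
noncomputable def W (n M : ℕ) (P : k[X][X]) : ℕ := P.support.sup (wt n M P)

theorem wt_le {n M : ℕ} {P : k[X][X]} {j : ℕ} (h : P.coeff j ≠ 0) : wt n M P j ≤ W n M P :=
  Finset.le_sup (f := wt n M P) (mem_support_iff.2 h)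

theorem exists_max (n M : ℕ) {P : k[X][X]} (hP : P ≠ 0) : ∃ j, P.coeff j ≠ 0 ∧
    wt n M P j = W n M P ∧ ∀ i, j < i → P.coeff i ≠ 0 → wt n M P i < W n M P := by
  classical
  obtain ⟨j1, hj1, e1⟩ := Finset.exists_mem_eq_sup P.support (support_nonempty.2 hP) (wt n M P)
  have hne : (P.support.filter fun j => wt n M P j = W n M P).Nonempty :=
    ⟨j1, Finset.mem_filter.2 ⟨hj1, e1.symm⟩⟩
  obtain ⟨hm1, hm2⟩ := Finset.mem_filter.1 (Finset.max'_mem _ hne)
  refine ⟨_, mem_support_iff.1 hm1, hm2, fun i hi h0 => ?_⟩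
  rcases (wt_le (n := n) (M := M) h0).lt_or_eq with h | h
  · exact h
  · have hmem : i ∈ P.support.filter fun j => wt n M P j = W n M P :=
      Finset.mem_filter.2 ⟨mem_support_iff.2 h0, h⟩
    exact absurd (Finset.le_max' _ i hmem) (not_le.2 hi)

theorem exists_coeff {n : ℕ} (hn : 0 < n) (M : ℕ) {P Q : k[X][X]} (hP : P ≠ 0) (hQ : Q ≠ 0) :
    ∃ i, (P * Q).coeff i ≠ 0 ∧ W n M P + W n M Q ≤ wt n M (P * Q) i := by
  classical
  obtain ⟨a, ha0, ha1, ha2⟩ := exists_max n M hP
  obtain ⟨b, hb0, hb1, hb2⟩ := exists_max n M hQ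
  have hc : ((P * Q).coeff (a + b)).coeff ((P.coeff a).natDegree + (Q.coeff b).natDegree) =
      (P.coeff a).leadingCoeff * (Q.coeff b).leadingCoeff := by
    rw [coeff_mul, finset_sum_coeff, Finset.sum_eq_single (a, b)]
    · rw [coeff_mul_degree_add_degree]
    · rintro ⟨i, j⟩ hij hne
      rw [Finset.HasAntidiagonal.mem_antidiagonal] at hij
      simp only at hij ⊢
      by_cases h1 : P.coeff i = 0
      · rw [h1, zero_mul, coeff_zero]
      by_cases h2 : Q.coeff j = 0
      · rw [h2, mul_zero, coeff_zero]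
      apply coeff_eq_zero_of_natDegree_lt
      refine lt_of_le_of_lt natDegree_mul_le ?_
      have w1 := wt_le (n := n) (M := M) h1
      have w2 := wt_le (n := n) (M := M) h2
      have hlt : wt n M P i + wt n M Q j < W n M P + W n M Q := by
        rcases lt_trichotomy i a with h | h | h
        · have := hb2 j (by omega) h2
          omega
        · exact absurd (by rw [Prod.mk.injEq]; omega) hne
        · have := ha2 i h h1
          omega
      rw [← ha1, ← hb1] at hlt
      unfold wt at hlt
      have e : M * i + M * j = M * a + M * b := by rw [← mul_add, hij, mul_add]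
      have h3 : n * ((P.coeff i).natDegree + (Q.coeff j).natDegree) <
          n * ((P.coeff a).natDegree + (Q.coeff b).natDegree) := by
        rw [mul_add, mul_add]; omega
      exact lt_of_mul_lt_mul_left h3 (Nat.zero_le n)
    · intro h
      exact absurd (by simp) h
  have hne : ((P * Q).coeff (a + b)).coeff ((P.coeff a).natDegree + (Q.coeff b).natDegree) ≠ 0 := by
    rw [hc]
    exact mul_ne_zero (leadingCoeff_ne_zero.2 ha0) (leadingCoeff_ne_zero.2 hb0)
  refine ⟨a + b, fun h => hne (by rw [h, coeff_zero]), ?_⟩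
  have h4 := le_natDegree_of_ne_zero hne
  rw [← ha1, ← hb1]
  unfold wt
  have h5 := Nat.mul_le_mul_left n h4
  rw [mul_add] at h5
  rw [mul_add]
  omega

theorem stIrr : Pool.Agent.Y160.FT.StIrr := by
  intro k F _ _ _ _ f M hm hco hM h0 hj
  rw [← hm.irreducible_iff_irreducible_map_fraction_map]
  have hn : 0 < f.natDegree := by
    rcases Nat.eq_zero_or_pos f.natDegree with h | h
    · rw [hm.natDegree_eq_zero.1 h] at h0
      simp at h0
      omega
    · exact h
  have hne : f ≠ 1 := fun h => by rw [h, natDegree_one] at hn; exact lt_irrefl _ hn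
  rw [hm.irreducible_iff_natDegree]
  refine ⟨hne, fun P Q hP hQ hPQ => ?_⟩
  by_contra hcon
  push Not at hcon
  obtain ⟨hp, hq⟩ := hcon
  have hdeg : P.natDegree + Q.natDegree = f.natDegree := by
    rw [← hPQ, hP.natDegree_mul hQ]
  obtain ⟨i, hi0, hi1⟩ := exists_coeff hn M hP.ne_zero hQ.ne_zero
  rw [hPQ] at hi0 hi1
  have hin : i ≤ f.natDegree := le_natDegree_of_ne_zero hi0
  have hi2 := hj i hin
  have hW : W f.natDegree M P + W f.natDegree M Q ≤ M * f.natDegree := by
    refine hi1.trans ?_
    unfold wt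
    have : M * (f.natDegree - i) + M * i = M * f.natDegree := by
      rw [← mul_add, Nat.sub_add_cancel hin]
    omega
  have hWP : M * P.natDegree ≤ W f.natDegree M P := by
    have := wt_le (n := f.natDegree) (M := M) (P := P) (j := P.natDegree) (by
      rw [hP.coeff_natDegree]; exact one_ne_zero)
    unfold wt at this
    omega
  have hWQ : M * Q.natDegree ≤ W f.natDegree M Q := by
    have := wt_le (n := f.natDegree) (M := M) (P := Q) (j := Q.natDegree) (by
      rw [hQ.coeff_natDegree]; exact one_ne_zero)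
    unfold wt at this
    omega
  have hc0 : f.coeff 0 = P.coeff 0 * Q.coeff 0 := by rw [← hPQ, mul_coeff_zero]
  have hf0 : f.coeff 0 ≠ 0 := fun h => by rw [h, natDegree_zero] at h0; omega
  have hP0 : P.coeff 0 ≠ 0 := fun h => hf0 (by rw [hc0, h, zero_mul])
  have hQ0 : Q.coeff 0 ≠ 0 := fun h => hf0 (by rw [hc0, h, mul_zero])
  have hWP0 := wt_le (n := f.natDegree) (M := M) hP0
  have hWQ0 := wt_le (n := f.natDegree) (M := M) hQ0
  unfold wt at hWP0 hWQ0
  rw [mul_zero, add_zero] at hWP0 hWQ0
  have hsum : (P.coeff 0).natDegree + (Q.coeff 0).natDegree = M := by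
    rw [← natDegree_mul hP0 hQ0, ← hc0, h0]
  have e1 : M * P.natDegree + M * Q.natDegree = M * f.natDegree := by rw [← mul_add, hdeg]
  have e2 : f.natDegree * (P.coeff 0).natDegree + f.natDegree * (Q.coeff 0).natDegree =
      f.natDegree * M := by rw [← mul_add, hsum]
  have e3 : f.natDegree * M = M * f.natDegree := mul_comm _ _
  have e4 : f.natDegree * (P.coeff 0).natDegree = M * P.natDegree := by omega
  have h6 : f.natDegree ∣ M * P.natDegree := ⟨_, e4.symm⟩
  have h7 : f.natDegree ∣ P.natDegree := hco.dvd_of_dvd_mul_left h6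
  have h8 := Nat.le_of_dvd (Nat.pos_of_ne_zero hp) h7
  omega

end Pool.Agent.Y228.FT
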