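import Pool.Agent.Y160.FT.Stmts

set_option autoImplicit false
set_option linter.all false

/-! FT-Tower: preliminaries. -/

namespace Pool.Agent.Y228.FT

open Polynomial IsDedekindDomain WithZero
open Pool.Agent.Y160.SE (IsPw)
open Pool.Agent.Y160.FT

/-! ### places of prime elements -/

section places

variable {R : Type} [CommRing R] [IsDedekindDomain R]

/-- the place of a prime element -/
noncomputable def vpr {p : R} (hp : Prime p) : HeightOneSpectrum R where
  asIdeal := Ideal.span {p}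
  isPrime := (Ideal.span_singleton_prime hp.ne_zero).2 hp
  ne_bot := by
    rw [Ne, Ideal.span_singleton_eq_bot]
    exact hp.ne_zero

theorem vpr_lt_one {p : R} (hp : Prime p) (x : R) : (vpr hp).intValuation x < 1 ↔ p ∣ x := by
  rw [HeightOneSpectrum.intValuation_lt_one_iff_mem]
  exact Ideal.mem_span_singleton

theorem vpr_eq_one {p : R} (hp : Prime p) (x : R) : (vpr hp).intValuation x = 1 ↔ ¬ p ∣ x := by
  rw [← vpr_lt_one hp, not_lt]
  exact ⟨fun h => h.ge, fun h => le_antisymm (HeightOneSpectrum.intValuation_le_one _ _) h⟩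

theorem vpr_le {p : R} (hp : Prime p) (x : R) (n : ℕ) :
    (vpr hp).intValuation x ≤ exp (-(n : ℤ)) ↔ p ^ n ∣ x := by
  rw [HeightOneSpectrum.intValuation_le_pow_iff_mem]
  show x ∈ (Ideal.span {p}) ^ n ↔ _
  rw [Ideal.span_singleton_pow, Ideal.mem_span_singleton]

theorem vpr_self {p : R} (hp : Prime p) : (vpr hp).intValuation p = exp (-1 : ℤ) :=
  HeightOneSpectrum.intValuation_singleton _ hp.ne_zero rfl

/-- the other places do not see a prime element -/
theorem eq_vpr {p : R} (hp : Prime p) (v : HeightOneSpectrum R) (h : v.intValuation p ≠ 1) :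
    v = vpr hp := by
  have h1 : v.intValuation p < 1 := lt_of_le_of_ne (HeightOneSpectrum.intValuation_le_one _ _) h
  rw [HeightOneSpectrum.intValuation_lt_one_iff_mem] at h1
  have h2 : Ideal.span {p} ≤ v.asIdeal := (Ideal.span_singleton_le_iff_mem _).2 h1
  have h3 : (Ideal.span {p}).IsMaximal := (vpr hp).isPrime.isMaximal (vpr hp).ne_bot
  exact HeightOneSpectrum.ext (h3.eq_of_le v.isPrime.ne_top h2).symm

theorem val_cases {p : R} (hp : Prime p) (v : HeightOneSpectrum R) :
    v.intValuation p = 1 ∨ v.intValuation p = exp (-1 : ℤ) := by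
  by_cases h : v.intValuation p = 1
  · exact Or.inl h
  · right
    rw [eq_vpr hp v h, vpr_self]

theorem val_ne_zero (v : HeightOneSpectrum R) {x : R} (hx : x ≠ 0) : v.intValuation x ≠ 0 :=
  v.intValuation_ne_zero x hx

theorem val_unit (v : HeightOneSpectrum R) {x : R} (hx : IsUnit x) : v.intValuation x = 1 := by
  obtain ⟨u, rfl⟩ := hx
  apply le_antisymm (HeightOneSpectrum.intValuation_le_one _ _)
  have h1 : v.intValuation (u : R) * v.intValuation ((u⁻¹ : Rˣ) : R) = 1 := by
    rw [← map_mul, Units.mul_inv, map_one]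
  have h2 := HeightOneSpectrum.intValuation_le_one v ((u⁻¹ : Rˣ) : R)
  calc (1 : WithZero (Multiplicative ℤ)) = v.intValuation (u : R) * v.intValuation ((u⁻¹ : Rˣ) : R) := h1.symm
    _ ≤ v.intValuation (u : R) * 1 := by gcongr
    _ = v.intValuation (u : R) := mul_one _

end places

/-! ### polynomials with `ℓ`-th power valuations -/

section pol

variable {k : Type} [Field k]

theorem VV.mul {g a b : k[X]} (ha : VV g a) (hb : VV g b) : VV g (a * b) := by
  obtain ⟨N, hN⟩ := ha
  obtain ⟨M, hM⟩ := hb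
  exact ⟨N + M, by rw [pow_add]; exact mul_dvd_mul hN hM⟩

theorem VV.one (g : k[X]) : VV g 1 := ⟨0, one_dvd _⟩

theorem isPw_one (ℓ : ℕ) : IsPw ℓ 1 := ⟨1, (one_pow _).symm⟩

theorem isPw_exp {ℓ : ℕ} (hℓ : ℓ ≠ 0) {n : ℕ} (h : IsPw ℓ (exp (-(n : ℤ)))) : ℓ ∣ n := by
  obtain ⟨δ, hδ⟩ := h
  have hδ0 : δ ≠ 0 := fun h0 => by
    rw [h0, zero_pow hℓ] at hδ
    exact exp_ne_zero hδ
  obtain ⟨t, rfl⟩ : ∃ t : ℤ, δ = exp t := ⟨log δ, (exp_log hδ0).symm⟩
  rw [← exp_nsmul, exp_inj] at hδ
  have : (ℓ : ℤ) ∣ (n : ℤ) := ⟨-t, by rw [nsmul_eq_mul] at hδ; linarith⟩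
  exact_mod_cast this

theorem factor {ℓ : ℕ} (hℓ : 0 < ℓ) (g : k[X]) : ∀ (n : ℕ) (P : k[X]), P ≠ 0 → P.natDegree ≤ n →
    (∀ v : HeightOneSpectrum k[X], v.intValuation g = 1 → IsPw ℓ (v.intValuation P)) →
    ∃ (c : k) (d w : k[X]), c ≠ 0 ∧ VV g d ∧ w ≠ 0 ∧ d ≠ 0 ∧ P = C c * d * w ^ ℓ := by
  intro n
  induction n with
  | zero =>
    intro P hP hn _
    obtain ⟨c, hc⟩ : ∃ c, P = C c := ⟨_, eq_C_of_natDegree_le_zero hn⟩
    refine ⟨c, 1, 1, fun h => hP (by rw [hc, h, C_0]), VV.one g, one_ne_zero, one_ne_zero, ?_⟩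
    rw [hc, one_pow, mul_one, mul_one]
  | succ n ih =>
    intro P hP hn hv
    by_cases hdeg : P.natDegree ≤ n
    · exact ih P hP hdeg hv
    have hnu : ¬ IsUnit P := fun hu => by
      have := natDegree_eq_zero_of_isUnit hu
      omega
    obtain ⟨p, hpi, hpP⟩ := WfDvdMonoid.exists_irreducible_factor hnu hP
    have hp : Prime p := hpi.prime
    have hpd : 0 < p.natDegree := hpi.natDegree_pos
    by_cases hpg : p ∣ g
    · obtain ⟨Q, rfl⟩ := hpP
      have hQ : Q ≠ 0 := right_ne_zero_of_mul hP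
      rw [natDegree_mul hp.ne_zero hQ] at hn
      obtain ⟨c, d, w, h1, ⟨N, h2⟩, h3, h5, h4⟩ := ih Q hQ (by omega) (fun v hvg => by
        have hvp : v.intValuation p = 1 := by
          by_contra hne
          have hlt : v.intValuation p < 1 :=
            lt_of_le_of_ne (HeightOneSpectrum.intValuation_le_one _ _) hne
          rw [HeightOneSpectrum.intValuation_lt_one_iff_mem] at hlt
          have : v.intValuation g < 1 := by
            rw [HeightOneSpectrum.intValuation_lt_one_iff_mem]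
            exact Ideal.mem_of_dvd _ hpg hlt
          exact absurd hvg this.ne
        have := hv v hvg
        rwa [map_mul, hvp, one_mul] at this)
      refine ⟨c, p * d, w, h1, ⟨N + 1, ?_⟩, h3, mul_ne_zero hp.ne_zero h5, ?_⟩
      · rw [pow_succ, mul_comm p d]
        exact mul_dvd_mul h2 hpg
      · rw [h4]; ring
    · have hvg : (vpr hp).intValuation g = 1 := (vpr_eq_one hp g).2 hpg
      have h1 := hv _ hvg
      obtain ⟨m, hm⟩ : ∃ m : ℕ, (vpr hp).intValuation P = exp (-(m : ℤ)) :=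
        ⟨_, HeightOneSpectrum.intValuation_if_neg _ hP⟩
      rw [hm] at h1
      have h2 := isPw_exp hℓ.ne' h1
      have h3 : 1 ≤ m := by
        by_contra hcon
        have : m = 0 := by omega
        rw [this] at hm
        have h4 := (vpr_lt_one hp P).2 hpP
        rw [hm] at h4
        simp at h4
      have h4 : ℓ ≤ m := Nat.le_of_dvd (by omega) h2
      have h5 : p ^ ℓ ∣ P := by
        rw [← vpr_le hp, hm]
        exact exp_le_exp.2 (by omega)
      obtain ⟨Q, rfl⟩ := h5
      have hQ : Q ≠ 0 := right_ne_zero_of_mul hP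
      rw [natDegree_mul (pow_ne_zero _ hp.ne_zero) hQ, natDegree_pow] at hn
      have hlp : 0 < ℓ * p.natDegree := Nat.mul_pos hℓ hpd
      obtain ⟨c, d, w, h6, h7, h8, h10, h9⟩ := ih Q hQ (by omega) (fun v hvg' => by
        have := hv v hvg'
        rw [map_mul, map_pow, mul_comm] at this
        exact this.of_mul (val_ne_zero v hp.ne_zero))
      refine ⟨c, d, p * w, h6, h7, mul_ne_zero hp.ne_zero h8, h10, ?_⟩
      rw [h9, mul_pow]
      ring

end pol

end Pool.Agent.Y228.FT
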