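import Pool.Agent.Y228.FT.TwA

set_option autoImplicit false
set_option linter.all false

/-! FT-Tower: the polynomials, the norm argument, the places of `k[X]`. -/

namespace Pool.Agent.Y228.FT

open Polynomial IsDedekindDomain WithZero
open Pool.Agent.Y160.SE (IsPw)
open Pool.Agent.Y160.FT

/-! ### the polynomials -/

section EEs

theorem EE_map {k S S' : Type} [CommRing k] [CommRing S] [CommRing S'] (ℓ : ℕ) (φ : k[X] →+* S)
    (ψ : S →+* S') (l : List (k[X] × k)) (T : S) :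
    ψ (EE ℓ φ l T) = EE ℓ (ψ.comp φ) l (ψ T) := by
  induction l with
  | nil => rfl
  | cons p l ih =>
    obtain ⟨b, a⟩ := p
    show ψ (φ b + φ (C a) * (EE ℓ φ l T) ^ ℓ) = ψ (φ b) + ψ (φ (C a)) * (EE ℓ (ψ.comp φ) l (ψ T)) ^ ℓ
    rw [map_add, map_mul, map_pow, ih]

theorem EE_append {k S : Type} [CommRing k] [CommRing S] (ℓ : ℕ) (φ : k[X] →+* S)
    (l : List (k[X] × k)) (b : k[X]) (a : k) (T : S) :
    EE ℓ φ (l ++ [(b, a)]) T = EE ℓ φ l (φ b + φ (C a) * T ^ ℓ) := by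
  induction l with
  | nil => rfl
  | cons p l ih =>
    obtain ⟨b', a'⟩ := p
    show φ b' + φ (C a') * (EE ℓ φ (l ++ [(b, a)]) T) ^ ℓ = _
    rw [ih]
    rfl

variable {k : Type} [Field k]

theorem FF_append (ℓ q : ℕ) (g : k[X]) (l : List (k[X] × k)) (b : k[X]) (a : k) :
    FF ℓ q g (l ++ [(b, a)]) = (FF ℓ q g l).comp (C b + C (C a) * X ^ ℓ) := by
  unfold FF
  rw [EE_append, add_comp, pow_comp, C_comp]
  congr 2
  have h := EE_map ℓ (C : k[X] →+* k[X][X]) (compRingHom (C b + C (C a) * X ^ ℓ)) l X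
  have e1 : (compRingHom (C b + C (C a) * X ^ ℓ : k[X][X])).comp C = C :=
    RingHom.ext fun x => by simp
  rw [e1] at h
  have e2 : (compRingHom (C b + C (C a) * X ^ ℓ : k[X][X])) X = C b + C (C a) * X ^ ℓ := by
    simp
  rw [e2] at h
  exact h.symm

theorem FF_eval (ℓ q : ℕ) (g : k[X]) (l : List (k[X] × k)) (b : k[X]) :
    (FF ℓ q g l).eval b = g + (EE ℓ (RingHom.id k[X]) l b) ^ q := by
  unfold FF
  rw [eval_add, eval_pow, eval_C]
  congr 2
  have h := EE_map ℓ (C : k[X] →+* k[X][X]) (evalRingHom b) l X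
  have e1 : (evalRingHom b).comp C = RingHom.id k[X] := RingHom.ext fun x => by simp
  rw [e1] at h
  have e2 : (evalRingHom b) X = b := by simp
  rw [e2] at h
  exact h

theorem EE_natDegree {ℓ : ℕ} (hℓ : 0 < ℓ) (l : List (k[X] × k))
    (hl : ∀ l₁ b a l₂, l = l₁ ++ (b, a) :: l₂ → a ≠ 0) :
    1 ≤ (EE ℓ (C : k[X] →+* k[X][X]) l X).natDegree := by
  induction l with
  | nil => show 1 ≤ (X : k[X][X]).natDegree; rw [natDegree_X]
  | cons p l ih =>
    obtain ⟨b, a⟩ := p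
    have ha : a ≠ 0 := hl [] b a l rfl
    have h1 := ih (fun l₁ b' a' l₂ h => hl ((b, a) :: l₁) b' a' l₂ (by rw [h]; rfl))
    show 1 ≤ (C b + C (C a) * (EE ℓ C l X) ^ ℓ).natDegree
    rw [natDegree_C_add, natDegree_C_mul (by rwa [Ne, C_eq_zero]), natDegree_pow]
    exact Nat.mul_pos hℓ h1

theorem FF_natDegree {ℓ q : ℕ} (hℓ : 0 < ℓ) (hq : 2 ≤ q) (g : k[X]) (l : List (k[X] × k))
    (hl : ∀ l₁ b a l₂, l = l₁ ++ (b, a) :: l₂ → a ≠ 0) : 2 ≤ (FF ℓ q g l).natDegree := by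
  unfold FF
  rw [natDegree_C_add, natDegree_pow]
  have := EE_natDegree hℓ l hl
  nlinarith

/-- the degree of the discriminant of a step -/
theorem EE_deg_lt {ℓ : ℕ} : ∀ (l : List (k[X] × k)) (q D : ℕ) (T : k[X]),
    (∀ l₁ b a l₂, l = l₁ ++ (b, a) :: l₂ → q * ℓ ^ l₁.length * b.natDegree < D) →
    q * ℓ ^ l.length * T.natDegree < D → q * (EE ℓ (RingHom.id k[X]) l T).natDegree < D := by
  intro l
  induction l with
  | nil =>
    intro q D T _ h
    rw [List.length_nil, pow_zero, mul_one] at h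
    exact h
  | cons p l ih =>
    obtain ⟨b, a⟩ := p
    intro q D T h1 h2
    have h3 := h1 [] b a l rfl
    rw [List.length_nil, pow_zero, mul_one] at h3
    have h4 := ih (q * ℓ) D T (fun l₁ b' a' l₂ h => by
      have := h1 ((b, a) :: l₁) b' a' l₂ (by rw [h]; rfl)
      rw [List.length_cons, pow_succ] at this
      calc q * ℓ * ℓ ^ l₁.length * b'.natDegree = q * (ℓ ^ l₁.length * ℓ) * b'.natDegree := by ring
        _ < D := this) (by
      rw [List.length_cons, pow_succ] at h2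
      calc q * ℓ * ℓ ^ l.length * T.natDegree = q * (ℓ ^ l.length * ℓ) * T.natDegree := by ring
        _ < D := h2)
    show q * (b + C a * (EE ℓ (RingHom.id k[X]) l T) ^ ℓ).natDegree < D
    have h5 : (b + C a * (EE ℓ (RingHom.id k[X]) l T) ^ ℓ).natDegree ≤
        max b.natDegree (ℓ * (EE ℓ (RingHom.id k[X]) l T).natDegree) := by
      refine (natDegree_add_le _ _).trans (max_le_max le_rfl ?_)
      exact (natDegree_C_mul_le _ _).trans natDegree_pow_le
    refine lt_of_le_of_lt (Nat.mul_le_mul_left q h5) ?_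
    rcases le_total b.natDegree (ℓ * (EE ℓ (RingHom.id k[X]) l T).natDegree) with h | h
    · rw [max_eq_right h, ← mul_assoc]
      exact h4
    · rw [max_eq_left h]
      exact h3

end EEs

/-! ### the norm argument -/

section norm

variable {k : Type} [Field k]

theorem pw_of_coprime {ℓ m : ℕ} (h : ℓ.Coprime m) {c N : k} (hc : c ≠ 0) (e : c ^ m = N ^ ℓ) :
    ∃ s : k, s ^ ℓ = c := by
  have hb := Nat.gcd_eq_gcd_ab ℓ m
  rw [h] at hb
  refine ⟨c ^ (ℓ.gcdA m) * N ^ (ℓ.gcdB m), ?_⟩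
  have e1 : (N ^ (ℓ.gcdB m)) ^ ℓ = c ^ ((m : ℤ) * ℓ.gcdB m) := by
    rw [← zpow_natCast, ← zpow_mul, mul_comm (ℓ.gcdB m), zpow_mul, zpow_natCast, ← e,
      ← zpow_natCast c m, ← zpow_mul]
  have e2 : (c ^ (ℓ.gcdA m)) ^ ℓ = c ^ (ℓ.gcdA m * (ℓ : ℤ)) := by
    rw [← zpow_natCast, ← zpow_mul]
  rw [mul_pow, e1, e2, ← zpow_add₀ hc]
  have : ℓ.gcdA m * (ℓ : ℤ) + (m : ℤ) * ℓ.gcdB m = 1 := by
    push_cast at hb
    linarith
  rw [this, zpow_one]

theorem norm_pw {ℓ : ℕ} (hℓ : 0 < ℓ) {G : k[X]} (hG : Irreducible G) (h : ℓ.Coprime G.natDegree)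
    {c : k} {p : k[X]} (hd : G ∣ C c - p ^ ℓ) : ∃ s : k, s ^ ℓ = c := by
  by_cases hc : c = 0
  · exact ⟨0, by rw [hc, zero_pow hℓ.ne']⟩
  haveI : Fact (Irreducible G) := ⟨hG⟩
  have h1 : AdjoinRoot.mk G (C c) = (AdjoinRoot.mk G p) ^ ℓ := by
    rw [← map_pow]
    exact AdjoinRoot.mk_eq_mk.2 hd
  have h2 : Algebra.norm k (algebraMap k (AdjoinRoot G) c) =
      (Algebra.norm k (AdjoinRoot.mk G p)) ^ ℓ := by
    rw [← map_pow, ← h1]
    rfl
  have hpb : Module.finrank k (AdjoinRoot G) = G.natDegree := by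
    rw [(AdjoinRoot.powerBasis hG.ne_zero).finrank, AdjoinRoot.powerBasis_dim]
  rw [Algebra.norm_algebraMap, hpb] at h2
  exact pw_of_coprime h hc h2

end norm

/-! ### the places of `k[X]` -/

section placesP

variable {k : Type} [Field k]

theorem exists_prime_of_place (v : HeightOneSpectrum k[X]) : ∃ (p : k[X]) (hp : Prime p), v = vpr hp := by
  have hp := Submodule.IsPrincipal.prime_generator_of_isPrime v.asIdeal v.ne_bot
  refine ⟨_, hp, HeightOneSpectrum.ext ?_⟩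
  exact (Ideal.span_singleton_generator v.asIdeal).symm

theorem val_sqf {g : k[X]} (hg : Squarefree g) (v : HeightOneSpectrum k[X]) :
    v.intValuation g = 1 ∨ v.intValuation g = exp (-1 : ℤ) := by
  obtain ⟨p, hp, rfl⟩ := exists_prime_of_place v
  by_cases h : p ∣ g
  · right
    have hg0 : g ≠ 0 := hg.ne_zero
    obtain ⟨m, hm⟩ : ∃ m : ℕ, (vpr hp).intValuation g = exp (-(m : ℤ)) :=
      ⟨_, HeightOneSpectrum.intValuation_if_neg _ hg0⟩
    have h1 : ¬ p ^ 2 ∣ g := fun h2 => by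
      rw [sq] at h2
      exact hp.not_unit (hg p h2)
    have h2 : p ^ 1 ∣ g := by rwa [pow_one]
    rw [← vpr_le hp, hm, exp_le_exp] at h1 h2
    rw [hm]
    congr 1
    push_cast at h1 h2
    omega
  · left
    exact (vpr_eq_one hp g).2 h

theorem exists_good {ℓ : ℕ} : ∀ (n : ℕ) (P : k[X]), P ≠ 0 → P.natDegree ≤ n → ¬ ℓ ∣ P.natDegree →
    ∃ p : k[X], Irreducible p ∧ p ∣ P ∧ ¬ ℓ ∣ p.natDegree := by
  intro n
  induction n with
  | zero =>
    intro P _ h1 h2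
    rw [Nat.le_zero.1 h1] at h2
    exact absurd (dvd_zero ℓ) h2
  | succ n ih =>
    intro P hP hn hl
    have hnu : ¬ IsUnit P := fun hu => by
      rw [natDegree_eq_zero_of_isUnit hu] at hl
      exact hl (dvd_zero ℓ)
    obtain ⟨p, hpi, hpP⟩ := WfDvdMonoid.exists_irreducible_factor hnu hP
    by_cases h : ℓ ∣ p.natDegree
    · obtain ⟨Q, rfl⟩ := hpP
      have hQ : Q ≠ 0 := right_ne_zero_of_mul hP
      have hpd := hpi.natDegree_pos
      rw [natDegree_mul hpi.ne_zero hQ] at hn hl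
      obtain ⟨p', h1, h2, h3⟩ := ih Q hQ (by omega) (fun hd => hl (dvd_add h hd))
      exact ⟨p', h1, h2.mul_left p, h3⟩
    · exact ⟨p, hpi, hpP, h⟩

end placesP

end Pool.Agent.Y228.FT
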