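import Pool.Agent.Y228.FT.TwC

set_option autoImplicit false
set_option linter.all false

/-! FT-Tower: the general step. -/

namespace Pool.Agent.Y228.FT

open Polynomial IsDedekindDomain WithZero
open Pool.Agent.Y160.SE (IsPw)
open Pool.Agent.Y160.FT

section step

variable {k : Type} [Field k] {ℓ q s : ℕ} {ζ : k} {g : k[X]}

theorem stepAlg {R R' L : Type} [CommRing R] [Algebra k R] [CommRing R'] [Algebra R R'] [Field L]
    [Algebra R' L] [Algebra k L] {x H π : R} {u' : R'} (hpw : u' ^ ℓ = algebraMap R R' π)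
    (hsk : ∀ c : k, algebraMap k L c = algebraMap R' L (algebraMap R R' (algebraMap k R c)))
    (hgx : aeval x g = -H ^ q) (hq : q = ℓ ^ (s + 1)) {A W : k[X]} {c' : k} {i j : ℕ}
    (hA : A = C c' * g ^ i * W ^ ℓ) :
    algebraMap R' L (algebraMap R R' (aeval x A * π ^ j)) = algebraMap k L (c' * (-1) ^ i) *
      (algebraMap R' L (algebraMap R R' H) ^ (ℓ ^ s * i) * algebraMap R' L (algebraMap R R' (aeval x W)) *
        algebraMap R' L u' ^ j) ^ ℓ := by
  have e0 : aeval x A = algebraMap k R c' * (-H ^ q) ^ i * (aeval x W) ^ ℓ := by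
    rw [hA, map_mul, map_mul, map_pow, map_pow, aeval_C, hgx]
  have e1 : algebraMap R' L (algebraMap R R' π) = algebraMap R' L u' ^ ℓ := by
    rw [← map_pow, hpw]
  rw [e0]
  simp only [map_mul, map_pow, map_neg, map_one]
  rw [e1, ← hsk, neg_pow, ← pow_mul]
  have e4 : q * i = ℓ ^ s * i * ℓ := by rw [hq, pow_succ]; ring
  rw [e4]
  ring

/-- the data of a step -/
theorem step_data (h3 : StRes) (hℓ : ℓ.Prime) (hq : 2 ≤ q) {l : List (k[X] × k)} {b : k[X]} {a : k}
    (hc : Cond ℓ q g (l ++ [(b, a)])) {R : Type} [CommRing R] [IsDedekindDomain R] [Algebra k R]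
    {x u : R} (hP : Pres x u (FF ℓ q g l)) :
    ∃ π : R, Prime π ∧ u = aeval x b + algebraMap k R a * π ∧
      (∀ p : k[X], π ∣ aeval x p ↔ (g + (EE ℓ (RingHom.id k[X]) l b) ^ q) ∣ p) ∧
      ∀ z : R, ∃ p : k[X], π ∣ z - aeval x p := by
  have ha : a ≠ 0 := hc.ne l b a [] rfl
  have hG : Irreducible (g + (EE ℓ (RingHom.id k[X]) l b) ^ q) := hc.irr l b a [] rfl
  obtain ⟨hr1, hr2⟩ := h3 k R x u (FF ℓ q g l) hP b
  rw [FF_eval] at hr1
  have hdv : ∀ y : R, algebraMap k R a⁻¹ * (u - aeval x b) ∣ y ↔ (u - aeval x b) ∣ y := by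
    intro y
    have hu : IsUnit (algebraMap k R a⁻¹) := (IsUnit.mk0 _ (inv_ne_zero ha)).map (algebraMap k R)
    exact hu.mul_left_dvd
  have hd : ∀ p : k[X], algebraMap k R a⁻¹ * (u - aeval x b) ∣ aeval x p ↔
      (g + (EE ℓ (RingHom.id k[X]) l b) ^ q) ∣ p := fun p => (hdv _).trans (hr1 p)
  have hs : ∀ z : R, ∃ p : k[X], algebraMap k R a⁻¹ * (u - aeval x b) ∣ z - aeval x p := fun z => by
    obtain ⟨p, hp⟩ := hr2 z
    exact ⟨p, (hdv _).2 hp⟩
  refine ⟨algebraMap k R a⁻¹ * (u - aeval x b), ⟨?_, ?_, ?_⟩, ?_, hd, hs⟩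
  · intro h0
    have h1 : u - aeval x b = 0 := by
      have hu : algebraMap k R a⁻¹ ≠ 0 :=
        ((IsUnit.mk0 _ (inv_ne_zero ha)).map (algebraMap k R)).ne_zero
      exact (mul_eq_zero.1 h0).resolve_left hu
    have h2 : eval₂ ((aeval x : k[X] →ₐ[k] R) : k[X] →+* R) u (X - C b) = 0 := by
      rw [eval₂_sub, eval₂_X, eval₂_C]
      exact h1
    have h4 := (hP.ker _).1 h2
    have h5 := natDegree_le_of_dvd h4 (X_sub_C_ne_zero b)
    rw [natDegree_X_sub_C] at h5
    have h6 := FF_natDegree (q := q) hℓ.pos hq g l (fun l₁ b' a' l₂ h =>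
      hc.ne l₁ b' a' (l₂ ++ [(b, a)]) (by rw [h, List.append_assoc]; rfl))
    omega
  · intro hu
    have h1 : algebraMap k R a⁻¹ * (u - aeval x b) ∣ aeval x (1 : k[X]) := by
      rw [map_one]; exact hu.dvd
    exact hG.not_isUnit (isUnit_of_dvd_one ((hd 1).1 h1))
  · intro y z hyz
    obtain ⟨p, hp⟩ := hs y
    obtain ⟨p', hp'⟩ := hs z
    have h1 : algebraMap k R a⁻¹ * (u - aeval x b) ∣ aeval x (p * p') := by
      have e : aeval x (p * p') = y * z - (y - aeval x p) * z - aeval x p * (z - aeval x p') := by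
        rw [map_mul]; ring
      rw [e]
      exact dvd_sub (dvd_sub hyz (hp.mul_right z)) (hp'.mul_left _)
    rcases hG.prime.dvd_or_dvd ((hd _).1 h1) with h | h
    · left
      have := dvd_add hp ((hd p).2 h)
      rwa [sub_add_cancel] at this
    · right
      have := dvd_add hp' ((hd p').2 h)
      rwa [sub_add_cancel] at this
  · rw [← mul_assoc, ← map_mul, mul_inv_cancel₀ ha, map_one, one_mul]
    ring

theorem degG {l : List (k[X] × k)} {b : k[X]} {a : k}
    (hc : Cond ℓ q g (l ++ [(b, a)])) : (g + (EE ℓ (RingHom.id k[X]) l b) ^ q).natDegree = g.natDegree := by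
  apply natDegree_add_eq_left_of_natDegree_lt
  refine lt_of_le_of_lt natDegree_pow_le ?_
  refine EE_deg_lt l q g.natDegree b (fun l₁ b' a' l₂ h => ?_) (hc.deg l b a [] rfl)
  exact hc.deg l₁ b' a' (l₂ ++ [(b, a)]) (by rw [h, List.append_assoc]; rfl)

/-- the hypothesis on the fraction field -/
theorem stepA (hℓ : ℓ.Prime) {R : Type} [CommRing R] [IsDedekindDomain R] [Algebra k R]
    {x π : R} (hπ : Prime π) (hR : PropR ℓ g x) (a b : R) (ha : a ≠ 0) (hb : b ≠ 0)
    (hab : ∀ v : HeightOneSpectrum R, v.intValuation π = 1 →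
      IsPw ℓ (v.intValuation a / v.intValuation b)) :
    ∃ (c : k) (d w w' : R), c ≠ 0 ∧
      (d ≠ 0 ∧ ∃ (A : k[X]) (j : ℕ), VV g A ∧ d = aeval x A * π ^ j) ∧ w ≠ 0 ∧ w' ≠ 0 ∧
      a * w' ^ ℓ = algebraMap k R c * d * b * w ^ ℓ := by
  have hinj := IsFractionRing.injective R (FractionRing R)
  have hne : ∀ y : R, y ≠ 0 → algebraMap R (FractionRing R) y ≠ 0 := fun y hy h =>
    hy (hinj (by rw [h, map_zero]))
  have hva : ∀ (v : HeightOneSpectrum R), v.valuation (FractionRing R)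
      (algebraMap R (FractionRing R) a / algebraMap R (FractionRing R) b) =
      v.intValuation a / v.intValuation b := fun v => by
    rw [map_div₀, HeightOneSpectrum.valuation_of_algebraMap, HeightOneSpectrum.valuation_of_algebraMap]
  obtain ⟨t, ht⟩ : ∃ t : ℤ, (vpr hπ).intValuation a / (vpr hπ).intValuation b = exp t :=
    ⟨_, (exp_log (div_ne_zero (val_ne_zero _ ha) (val_ne_zero _ hb))).symm⟩
  have hℓ0 : (0 : ℤ) < ℓ := by exact_mod_cast hℓ.pos
  obtain ⟨e, m, hem⟩ : ∃ (e : ℕ) (m : ℤ), t = e + ℓ * m := by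
    refine ⟨(t % ℓ).toNat, t / ℓ, ?_⟩
    rw [Int.toNat_of_nonneg (Int.emod_nonneg _ hℓ0.ne'), Int.emod_add_mul_ediv]
  obtain ⟨c, A, w, hc, hA, hw, hz⟩ := hR (FractionRing R)
    (fun c => IsScalarTower.algebraMap_apply k R (FractionRing R) c)
    (algebraMap R (FractionRing R) a / algebraMap R (FractionRing R) b *
      algebraMap R (FractionRing R) π ^ e)
    (mul_ne_zero (div_ne_zero (hne a ha) (hne b hb)) (pow_ne_zero _ (hne π hπ.ne_zero)))
    (fun P => by
      rw [map_mul, hva, map_pow, HeightOneSpectrum.valuation_of_algebraMap]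
      by_cases h1 : P.intValuation π = 1
      · rw [h1, one_pow, mul_one]
        exact hab P h1
      · rw [eq_vpr hπ P h1, ht, vpr_self, ← exp_nsmul, ← exp_add]
        refine ⟨exp m, ?_⟩
        rw [← exp_nsmul]
        congr 1
        rw [nsmul_eq_mul, nsmul_eq_mul, hem]
        ring)
  obtain ⟨w1, w2, hw2, rfl⟩ := IsFractionRing.div_surjective (A := R) w
  have hw20 : w2 ≠ 0 := nonZeroDivisors.ne_zero hw2
  have hw10 : w1 ≠ 0 := fun h => hw (by rw [h, map_zero, zero_div])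
  have hbL := hne b hb
  have hw2L := hne w2 hw20
  have key : a * π ^ e * w2 ^ ℓ = algebraMap k R c * aeval x A * b * w1 ^ ℓ := by
    apply hinj
    simp only [map_mul, map_pow]
    rw [← IsScalarTower.algebraMap_apply k R (FractionRing R)]
    have hz' := hz
    rw [div_pow] at hz'
    field_simp at hz'
    linear_combination hz'
  have hAx : aeval x A ≠ 0 := fun h => by
    rw [h, mul_zero, zero_mul, zero_mul] at key
    exact mul_ne_zero (mul_ne_zero ha (pow_ne_zero _ hπ.ne_zero)) (pow_ne_zero _ hw20) key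
  refine ⟨c, aeval x A * π ^ ((ℓ - 1) * e), w1, π ^ e * w2, hc,
    ⟨mul_ne_zero hAx (pow_ne_zero _ hπ.ne_zero), A, _, hA, rfl⟩, hw10,
    mul_ne_zero (pow_ne_zero _ hπ.ne_zero) hw20, ?_⟩
  have e1 : (π ^ e) ^ ℓ = π ^ e * π ^ ((ℓ - 1) * e) := by
    rw [← pow_mul, ← pow_add]
    congr 1
    obtain ⟨m', rfl⟩ : ∃ m', ℓ = m' + 1 := ⟨ℓ - 1, by have := hℓ.pos; omega⟩
    rw [Nat.add_sub_cancel]
    ring
  rw [mul_pow, e1]
  linear_combination π ^ ((ℓ - 1) * e) * key

/-- the condition on the norm residues gives trivial elements -/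
theorem stepB (hℓ : ℓ.Prime) {l : List (k[X] × k)} {b : k[X]} {a : k}
    (hc : Cond ℓ q g (l ++ [(b, a)])) {R : Type} [CommRing R] [IsDedekindDomain R] [Algebra k R]
    {x π : R} (hπ : Prime π)
    (hd : ∀ p : k[X], π ∣ aeval x p ↔ (g + (EE ℓ (RingHom.id k[X]) l b) ^ q) ∣ p)
    (hs : ∀ z : R, ∃ p : k[X], π ∣ z - aeval x p) (c : k) (hc0 : c ≠ 0) (A : k[X]) (j : ℕ)
    (hA : VV g A)
    (hnr : ∃ (e : ℕ) (w : R), (vpr hπ).intValuation w = 1 ∧
        (vpr hπ).intValuation (algebraMap k R c * (aeval x A * π ^ j) -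
          ((-1) ^ (ℓ - 1) * π) ^ e * w ^ ℓ) < exp (-(e : ℤ))) : Triv ℓ g A := by
  by_cases hGA : (g + (EE ℓ (RingHom.id k[X]) l b) ^ q) ∣ A
  · refine hc.step l b a [] rfl c A 0 hc0 hA ?_
    rw [zero_pow hℓ.ne_zero, sub_zero]
    exact hGA.mul_left _
  obtain ⟨e, w, hw, hlt⟩ := hnr
  set v := vpr hπ with hv
  have hvA : v.intValuation (aeval x A) = 1 := (vpr_eq_one hπ _).2 (fun h => hGA ((hd A).1 h))
  have hvc : v.intValuation (algebraMap k R c) = 1 :=
    val_unit v ((IsUnit.mk0 _ hc0).map (algebraMap k R))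
  have hvπ : v.intValuation π = exp (-1 : ℤ) := vpr_self hπ
  have hpw : ∀ n : ℕ, v.intValuation π ^ n = exp (-(n : ℤ)) := fun n => by
    rw [hvπ, ← exp_nsmul]
    congr 1
    rw [nsmul_eq_mul]
    ring
  have hvε : ∀ n : ℕ, v.intValuation ((-1 : R) ^ n) = 1 := fun n =>
    val_unit v (isUnit_one.neg.pow n)
  have h1 : v.intValuation (algebraMap k R c * (aeval x A * π ^ j)) = exp (-(j : ℤ)) := by
    rw [map_mul, map_mul, map_pow, hvc, hvA, one_mul, one_mul, hpw]
  have h2 : v.intValuation (((-1) ^ (ℓ - 1) * π) ^ e * w ^ ℓ) = exp (-(e : ℤ)) := by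
    rw [map_mul, map_pow, map_pow, map_mul, hvε, one_mul, hw, one_pow, mul_one, hpw]
  have hje : j = e := by
    rcases lt_trichotomy j e with h | h | h
    · exfalso
      have h5 : v.intValuation (algebraMap k R c * (aeval x A * π ^ j)) ≤
          max (v.intValuation (algebraMap k R c * (aeval x A * π ^ j) -
            ((-1) ^ (ℓ - 1) * π) ^ e * w ^ ℓ)) (v.intValuation (((-1) ^ (ℓ - 1) * π) ^ e * w ^ ℓ)) := by
        have := v.intValuation.map_add (algebraMap k R c * (aeval x A * π ^ j) -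
            ((-1) ^ (ℓ - 1) * π) ^ e * w ^ ℓ) (((-1) ^ (ℓ - 1) * π) ^ e * w ^ ℓ)
        rwa [sub_add_cancel] at this
      rw [h1, h2, max_eq_right hlt.le, exp_le_exp] at h5
      omega
    · exact h
    · exfalso
      have h5 : v.intValuation (((-1) ^ (ℓ - 1) * π) ^ e * w ^ ℓ) ≤
          max (v.intValuation (algebraMap k R c * (aeval x A * π ^ j)))
            (v.intValuation (algebraMap k R c * (aeval x A * π ^ j) -
            ((-1) ^ (ℓ - 1) * π) ^ e * w ^ ℓ)) := by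
        have := v.intValuation.map_sub (algebraMap k R c * (aeval x A * π ^ j))
          (algebraMap k R c * (aeval x A * π ^ j) - ((-1) ^ (ℓ - 1) * π) ^ e * w ^ ℓ)
        rwa [sub_sub_cancel] at this
      rw [h1, h2] at h5
      have h6 : exp (-(j : ℤ)) < exp (-(e : ℤ)) := exp_lt_exp.2 (by omega)
      exact absurd h5 (not_le.2 (max_lt h6 hlt))
  subst hje
  have h7 : algebraMap k R c * (aeval x A * π ^ j) - ((-1) ^ (ℓ - 1) * π) ^ j * w ^ ℓ =
      π ^ j * (algebraMap k R c * aeval x A - ((-1) ^ (ℓ - 1)) ^ j * w ^ ℓ) := by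
    rw [mul_pow]
    ring
  rw [h7, map_mul, map_pow, hpw] at hlt
  have h8 : v.intValuation (algebraMap k R c * aeval x A - ((-1) ^ (ℓ - 1)) ^ j * w ^ ℓ) < 1 := by
    by_contra hcon
    push Not at hcon
    have : exp (-(j : ℤ)) * 1 ≤ exp (-(j : ℤ)) *
        v.intValuation (algebraMap k R c * aeval x A - ((-1) ^ (ℓ - 1)) ^ j * w ^ ℓ) := by gcongr
    rw [mul_one] at this
    exact absurd hlt (not_lt.2 this)
  have h9 := (vpr_lt_one hπ _).1 h8
  obtain ⟨p, hp⟩ := hs w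
  have h10 : π ∣ w ^ ℓ - (aeval x p) ^ ℓ := hp.trans (sub_dvd_pow_sub_pow _ _ _)
  have hε2 : ((-1 : k) ^ (ℓ - 1)) ^ j * ((-1) ^ (ℓ - 1)) ^ j = 1 := by
    rw [← mul_pow, ← mul_pow]
    norm_num
  have hε2R : ((-1 : R) ^ (ℓ - 1)) ^ j * ((-1) ^ (ℓ - 1)) ^ j = 1 := by
    rw [← mul_pow, ← mul_pow]
    norm_num
  have h11 : π ∣ aeval x (C (c * ((-1) ^ (ℓ - 1)) ^ j) * A - p ^ ℓ) := by
    have e1 : aeval x (C (c * ((-1) ^ (ℓ - 1)) ^ j) * A - p ^ ℓ) =
        ((-1) ^ (ℓ - 1)) ^ j * (algebraMap k R c * aeval x A - ((-1) ^ (ℓ - 1)) ^ j * w ^ ℓ) +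
          (w ^ ℓ - (aeval x p) ^ ℓ) := by
      rw [map_sub, map_mul, map_pow, aeval_C]
      simp only [map_mul, map_pow, map_neg, map_one]
      linear_combination (w ^ ℓ) * hε2R
    rw [e1]
    exact dvd_add (h9.mul_left _) h10
  exact hc.step l b a [] rfl (c * ((-1) ^ (ℓ - 1)) ^ j) A p
    (mul_ne_zero hc0 (pow_ne_zero _ (pow_ne_zero _ (by norm_num)))) hA ((hd _).1 h11)

end step

end Pool.Agent.Y228.FT
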